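import Pool.Agent.Lib.MP_625f41_nt.H49.Near

/-!
# Two roots of `A + T B` with close values of `z ^ 3 - κ z`
-/

open Polynomial Filter Topology

namespace Pool.Agent.Lib.MP_625f41_nt.H49

theorem two_roots (A B : ℂ[X]) (n r : ℕ) (κ a b : ℂ) (K : ℝ) (hK : 0 ≤ K)
    (hab : a ^ 2 + a * b + b ^ 2 = κ) (hne : a ≠ b) (hb : a + 2 * b ≠ 0)
    (hBa : B.eval a = 0) (hBa' : B.derivative.eval a ≠ 0)
    (hBb' : B.derivative.eval b ≠ 0) (hAa : A.eval a ≠ 0) (hr : 1 ≤ r)
    (hdeg : ∀ T : ℕ, (A + C (T : ℂ) * B).natDegree ≤ n)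
    (hW : ∀ᶠ p : ℂ × ℂ in 𝓝 (a, b), p.1 ^ 2 + p.1 * p.2 + p.2 ^ 2 = κ →
      ‖A.eval p.2 * B.eval p.1 - A.eval p.1 * B.eval p.2‖ ≤ K * ‖p.1 + p.2 - (a + b)‖ ^ r) :
    ∃ K' : ℝ, ∀ᶠ T : ℕ in atTop, ∃ z w : ℂ, z ≠ w ∧ (A + C (T : ℂ) * B).eval z = 0 ∧
      (A + C (T : ℂ) * B).eval w = 0 ∧
      ‖(z ^ 3 - κ * z) - (w ^ 3 - κ * w)‖ ≤ K' / (T : ℝ) ^ r := by
  have hA0 : 0 < ‖A.eval a‖ := norm_pos_iff.2 hAa
  have hBa0 : 0 < ‖B.derivative.eval a‖ := norm_pos_iff.2 hBa'
  have hBb0 : 0 < ‖B.derivative.eval b‖ := norm_pos_iff.2 hBb'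
  have hb0 : 0 < ‖a + 2 * b‖ := norm_pos_iff.2 hb
  have hevalQ : ∀ (T : ℕ) (z : ℂ), (A + C (T : ℂ) * B).eval z = A.eval z + T * B.eval z := by
    intro T z; simp
  have hevalQ' : ∀ (T : ℕ) (z : ℂ), (A + C (T : ℂ) * B).derivative.eval z =
      A.derivative.eval z + T * B.derivative.eval z := by
    intro T z; simp
  have hTtop : Tendsto (fun T : ℕ => (T : ℝ)) atTop atTop := tendsto_natCast_atTop_atTop
  -- first root
  set c1 : ℝ := n * (‖A.eval a‖ / (‖B.derivative.eval a‖ / 2)) with hc1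
  have hc1' : 0 ≤ c1 := by positivity
  have step1 : ∀ᶠ T : ℕ in atTop, ∃ z : ℂ, (A + C (T : ℂ) * B).eval z = 0 ∧ ‖z - a‖ ≤ c1 / T := by
    filter_upwards [hTtop.eventually_ge_atTop (2 * ‖A.derivative.eval a‖ /
      ‖B.derivative.eval a‖), eventually_ge_atTop 1] with T hT hT1
    have hTpos : (0 : ℝ) < T := by exact_mod_cast hT1
    have h1 : T * ‖B.derivative.eval a‖ / 2 ≤ ‖(A + C (T : ℂ) * B).derivative.eval a‖ := by
      rw [hevalQ']
      have h2 : ‖(T : ℂ) * B.derivative.eval a‖ ≤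
          ‖A.derivative.eval a + T * B.derivative.eval a‖ + ‖A.derivative.eval a‖ := by
        have := norm_sub_le (A.derivative.eval a + T * B.derivative.eval a) (A.derivative.eval a)
        rwa [add_sub_cancel_left] at this
      rw [norm_mul, Complex.norm_natCast] at h2
      rw [div_le_iff₀ hBa0] at hT
      linarith
    have hpos : 0 < T * ‖B.derivative.eval a‖ / 2 := by positivity
    have hne0 : (A + C (T : ℂ) * B).derivative.eval a ≠ 0 := by
      rw [← norm_pos_iff]; linarith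
    obtain ⟨z, hz, hza⟩ := exists_near_root (A + C (T : ℂ) * B) a hne0
    refine ⟨z, hz, hza.trans ?_⟩
    rw [hevalQ, hBa, mul_zero, add_zero]
    have h3 : ‖A.eval a‖ / ‖(A + C (T : ℂ) * B).derivative.eval a‖ ≤
        ‖A.eval a‖ / (T * ‖B.derivative.eval a‖ / 2) :=
      div_le_div_of_nonneg_left hA0.le hpos h1
    have h4 : ((A + C (T : ℂ) * B).natDegree : ℝ) ≤ n := by exact_mod_cast hdeg T
    calc ((A + C (T : ℂ) * B).natDegree : ℝ) *
          (‖A.eval a‖ / ‖(A + C (T : ℂ) * B).derivative.eval a‖)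
        ≤ n * (‖A.eval a‖ / (T * ‖B.derivative.eval a‖ / 2)) :=
          mul_le_mul h4 h3 (by positivity) (by positivity)
      _ = c1 / T := by
          rw [hc1]; field_simp
  obtain ⟨z1, hz1⟩ := step1.choice
  have ht1 : Tendsto z1 atTop (𝓝 a) := by
    rw [tendsto_iff_norm_sub_tendsto_zero]
    refine squeeze_zero' (Eventually.of_forall fun T => norm_nonneg _) (hz1.mono fun T h => h.2) ?_
    exact tendsto_const_div_atTop_nhds_zero_nat c1
  -- the partner
  set c2 : ℝ := 2 * ((‖2 * a + b‖ + 1) / (‖a + 2 * b‖ / 2)) * c1 with hc2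
  have hc2' : 0 ≤ c2 := by positivity
  have step2 : ∀ᶠ T : ℕ in atTop, ∃ y : ℂ, z1 T ^ 2 + z1 T * y + y ^ 2 = κ ∧
      ‖y - b‖ ≤ c2 / T := by
    have hn1 : Tendsto (fun T => ‖z1 T + 2 * b‖) atTop (𝓝 ‖a + 2 * b‖) :=
      (ht1.add_const _).norm
    have hn2 : Tendsto (fun T => ‖z1 T + a + b‖) atTop (𝓝 ‖a + a + b‖) :=
      ((ht1.add_const _).add_const _).norm
    filter_upwards [hz1, hn1.eventually_const_le (show ‖a + 2 * b‖ / 2 < ‖a + 2 * b‖ by linarith),
      hn2.eventually_le_const (show ‖a + a + b‖ < ‖2 * a + b‖ + 1 by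
        rw [show a + a + b = 2 * a + b by ring]; linarith), eventually_ge_atTop 1]
      with T hT h1 h2 hT1
    have hTpos : (0 : ℝ) < T := by exact_mod_cast hT1
    obtain ⟨k, hk⟩ : ∃ k : ℂ, k = z1 T ^ 2 - κ := ⟨_, rfl⟩
    set p : ℂ[X] := X ^ 2 + C (z1 T) * X + C k with hp
    have hpd : p.natDegree ≤ 2 := by
      rw [hp]
      compute_degree
    have hpe : p.eval b = (z1 T - a) * (z1 T + a + b) := by
      rw [hp]
      simp only [eval_add, eval_pow, eval_X, eval_mul, eval_C]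
      linear_combination hab + hk
    have hpe' : p.derivative.eval b = z1 T + 2 * b := by
      rw [hp]
      simp
      ring
    have hpos : 0 < ‖a + 2 * b‖ / 2 := by positivity
    have hne0 : p.derivative.eval b ≠ 0 := by
      rw [hpe', ← norm_pos_iff]; linarith
    obtain ⟨y, hy, hyb⟩ := exists_near_root p b hne0
    refine ⟨y, ?_, hyb.trans ?_⟩
    · have := hy
      rw [hp] at this
      simp only [eval_add, eval_pow, eval_X, eval_mul, eval_C] at this
      linear_combination this - hk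
    · rw [hpe, hpe', norm_mul]
      have h4 : (p.natDegree : ℝ) ≤ 2 := by exact_mod_cast hpd
      calc (p.natDegree : ℝ) * (‖z1 T - a‖ * ‖z1 T + a + b‖ / ‖z1 T + 2 * b‖)
          ≤ 2 * ((c1 / T) * (‖2 * a + b‖ + 1) / (‖a + 2 * b‖ / 2)) := by
            refine mul_le_mul h4 ?_ (by positivity) (by norm_num)
            refine div_le_div₀ (by positivity) ?_ hpos h1
            exact mul_le_mul hT.2 h2 (norm_nonneg _) (by positivity)
        _ = c2 / T := by
            rw [hc2]; ring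
  obtain ⟨y1, hy1⟩ := step2.choice
  have ht2 : Tendsto y1 atTop (𝓝 b) := by
    rw [tendsto_iff_norm_sub_tendsto_zero]
    refine squeeze_zero' (Eventually.of_forall fun T => norm_nonneg _) (hy1.mono fun T h => h.2) ?_
    exact tendsto_const_div_atTop_nhds_zero_nat c2
  set c3 : ℝ := c1 + c2 with hc3
  set c4 : ℝ := n * (K * c3 ^ r * 8 / (‖A.eval a‖ * ‖B.derivative.eval b‖)) with hc4
  have hc4' : 0 ≤ c4 := by positivity
  have step3 : ∀ᶠ T : ℕ in atTop, ∃ w : ℂ, (A + C (T : ℂ) * B).eval w = 0 ∧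
      ‖w - y1 T‖ ≤ c4 / (T : ℝ) ^ r := by
    have hn1 : Tendsto (fun T => ‖A.eval (z1 T)‖) atTop (𝓝 ‖A.eval a‖) :=
      ((A.continuous.tendsto a).comp ht1).norm
    have hn2 : Tendsto (fun T => ‖B.derivative.eval (y1 T)‖) atTop
        (𝓝 ‖B.derivative.eval b‖) :=
      ((B.derivative.continuous.tendsto b).comp ht2).norm
    have hn3 : Tendsto (fun T => ‖A.derivative.eval (y1 T)‖) atTop
        (𝓝 ‖A.derivative.eval b‖) :=
      ((A.derivative.continuous.tendsto b).comp ht2).norm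
    have hW' := (ht1.prodMk_nhds ht2).eventually hW
    filter_upwards [hz1, hy1, hW',
      hn1.eventually_const_le (show ‖A.eval a‖ / 2 < ‖A.eval a‖ by linarith),
      hn2.eventually_const_le
        (show ‖B.derivative.eval b‖ / 2 < ‖B.derivative.eval b‖ by linarith),
      hn3.eventually_le_const
        (show ‖A.derivative.eval b‖ < ‖A.derivative.eval b‖ + 1 by linarith),
      hTtop.eventually_ge_atTop ((‖A.derivative.eval b‖ + 1) * 4 / ‖B.derivative.eval b‖),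
      eventually_ge_atTop 1]
      with T hzT hyT hWT h1 h2 h3 h4 hT1
    have hTpos : (0 : ℝ) < T := by exact_mod_cast hT1
    -- derivative
    have hd1 : T * ‖B.derivative.eval b‖ / 4 ≤ ‖(A + C (T : ℂ) * B).derivative.eval (y1 T)‖ := by
      rw [hevalQ']
      have h5 : ‖(T : ℂ) * B.derivative.eval (y1 T)‖ ≤
          ‖A.derivative.eval (y1 T) + T * B.derivative.eval (y1 T)‖ +
            ‖A.derivative.eval (y1 T)‖ := by
        have := norm_sub_le (A.derivative.eval (y1 T) + T * B.derivative.eval (y1 T))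
          (A.derivative.eval (y1 T))
        rwa [add_sub_cancel_left] at this
      rw [norm_mul, Complex.norm_natCast] at h5
      rw [div_le_iff₀ hBb0] at h4
      have h6 : T * (‖B.derivative.eval b‖ / 2) ≤ T * ‖B.derivative.eval (y1 T)‖ :=
        mul_le_mul_of_nonneg_left h2 hTpos.le
      linarith
    have hdpos : 0 < T * ‖B.derivative.eval b‖ / 4 := by positivity
    have hne0 : (A + C (T : ℂ) * B).derivative.eval (y1 T) ≠ 0 := by
      rw [← norm_pos_iff]; linarith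
    -- value
    have hu : ‖z1 T + y1 T - (a + b)‖ ≤ c3 / T := by
      have : z1 T + y1 T - (a + b) = (z1 T - a) + (y1 T - b) := by ring
      rw [this, hc3, add_div]
      exact (norm_add_le _ _).trans (add_le_add hzT.2 hyT.2)
    have hval : ‖(A + C (T : ℂ) * B).eval (y1 T)‖ ≤
        K * c3 ^ r * 2 / ‖A.eval a‖ * T / (T : ℝ) ^ r := by
      have hz0 := hzT.1
      rw [hevalQ] at hz0
      have h5 : (A + C (T : ℂ) * B).eval (y1 T) * A.eval (z1 T) =
          -(T : ℂ) * (A.eval (y1 T) * B.eval (z1 T) - A.eval (z1 T) * B.eval (y1 T)) := by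
        rw [hevalQ]
        linear_combination (A.eval (y1 T)) * hz0
      have h6 := congrArg norm h5
      rw [norm_mul, norm_mul, norm_neg, Complex.norm_natCast] at h6
      have h7 : ‖A.eval (y1 T) * B.eval (z1 T) - A.eval (z1 T) * B.eval (y1 T)‖ ≤
          K * (c3 / T) ^ r :=
        (hWT hyT.1).trans (mul_le_mul_of_nonneg_left
          (pow_le_pow_left₀ (norm_nonneg _) hu r) hK)
      have h8 : ‖(A + C (T : ℂ) * B).eval (y1 T)‖ * (‖A.eval a‖ / 2) ≤ T * (K * (c3 / T) ^ r) := by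
        calc ‖(A + C (T : ℂ) * B).eval (y1 T)‖ * (‖A.eval a‖ / 2)
            ≤ ‖(A + C (T : ℂ) * B).eval (y1 T)‖ * ‖A.eval (z1 T)‖ :=
              mul_le_mul_of_nonneg_left h1 (norm_nonneg _)
          _ = T * ‖A.eval (y1 T) * B.eval (z1 T) - A.eval (z1 T) * B.eval (y1 T)‖ := h6
          _ ≤ T * (K * (c3 / T) ^ r) := mul_le_mul_of_nonneg_left h7 hTpos.le
      have h9 : ‖(A + C (T : ℂ) * B).eval (y1 T)‖ ≤ T * (K * (c3 / T) ^ r) / (‖A.eval a‖ / 2) := by
        rw [le_div_iff₀ (by positivity)]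
        exact h8
      refine h9.trans (le_of_eq ?_)
      rw [div_pow]
      field_simp
    obtain ⟨w, hw, hwy⟩ := exists_near_root (A + C (T : ℂ) * B) (y1 T) hne0
    refine ⟨w, hw, hwy.trans ?_⟩
    have h4' : ((A + C (T : ℂ) * B).natDegree : ℝ) ≤ n := by exact_mod_cast hdeg T
    calc ((A + C (T : ℂ) * B).natDegree : ℝ) *
          (‖(A + C (T : ℂ) * B).eval (y1 T)‖ / ‖(A + C (T : ℂ) * B).derivative.eval (y1 T)‖)
        ≤ n * ((K * c3 ^ r * 2 / ‖A.eval a‖ * T / (T : ℝ) ^ r) /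
            (T * ‖B.derivative.eval b‖ / 4)) := by
          refine mul_le_mul h4' ?_ (by positivity) (by positivity)
          exact div_le_div₀ (by positivity) hval hdpos hd1
      _ = c4 / (T : ℝ) ^ r := by
          rw [hc4]; field_simp; ring
  obtain ⟨w1, hw1⟩ := step3.choice
  have ht3 : Tendsto w1 atTop (𝓝 b) := by
    have h0 : Tendsto (fun T => w1 T - y1 T) atTop (𝓝 0) := by
      rw [tendsto_zero_iff_norm_tendsto_zero]
      refine squeeze_zero' (Eventually.of_forall fun T => norm_nonneg _) ?_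
        (tendsto_const_div_atTop_nhds_zero_nat c4)
      filter_upwards [hw1, eventually_ge_atTop 1] with T hT hT1
      refine hT.2.trans ?_
      have hT1' : (1 : ℝ) ≤ T := by exact_mod_cast hT1
      exact div_le_div_of_nonneg_left hc4' (by linarith) (le_self_pow₀ hT1' (by omega))
    have := h0.add ht2
    simpa using this
  refine ⟨‖3 * b ^ 2 - κ‖ * c4 + c4, ?_⟩
  have hn4 : Tendsto (fun T => ‖y1 T ^ 2 + y1 T * w1 T + w1 T ^ 2 - κ‖) atTop
      (𝓝 ‖b ^ 2 + b * b + b ^ 2 - κ‖) :=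
    ((((ht2.pow 2).add (ht2.mul ht3)).add (ht3.pow 2)).sub_const κ).norm
  filter_upwards [hz1, hy1, hw1, (ht1.sub ht3).eventually_ne (sub_ne_zero.2 hne),
    hn4.eventually_le_const (show ‖b ^ 2 + b * b + b ^ 2 - κ‖ < ‖3 * b ^ 2 - κ‖ + 1 by
      rw [show b ^ 2 + b * b + b ^ 2 - κ = 3 * b ^ 2 - κ by ring]; linarith),
    eventually_ge_atTop 1] with T h1 h2 h3 h4 h5 hT1
  have hTpos : (0 : ℝ) < T := by exact_mod_cast hT1
  refine ⟨z1 T, w1 T, sub_ne_zero.1 h4, h1.1, h3.1, ?_⟩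
  have e : (z1 T ^ 3 - κ * z1 T) - (w1 T ^ 3 - κ * w1 T) =
      (y1 T ^ 2 + y1 T * w1 T + w1 T ^ 2 - κ) * (-(w1 T - y1 T)) := by
    linear_combination (z1 T - y1 T) * h2.1
  rw [e, norm_mul, norm_neg]
  calc ‖y1 T ^ 2 + y1 T * w1 T + w1 T ^ 2 - κ‖ * ‖w1 T - y1 T‖
      ≤ (‖3 * b ^ 2 - κ‖ + 1) * (c4 / (T : ℝ) ^ r) :=
        mul_le_mul h5 h3.2 (norm_nonneg _) (by positivity)
    _ = (‖3 * b ^ 2 - κ‖ * c4 + c4) / (T : ℝ) ^ r := by ring

end Pool.Agent.Lib.MP_625f41_nt.H49
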