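import Pool.Agent.Lib.MP_625f41_nt.H49.Height
import Pool.Agent.Lib.MP_625f41_nt.H49.Two

/-!
# The criterion for monic irreducible polynomials
-/

open Polynomial Filter Topology

namespace Pool.Agent.Lib.MP_625f41_nt.H49

section QT

variable (A B : ℤ[X]) (T : ℕ)

/-- the family `A + T B` -/
noncomputable def QT : ℤ[X] := A + C (T : ℤ) * B

lemma toC_QT : toC (QT A B T) = toC A + C (T : ℂ) * toC B := by
  simp [QT, toC]

variable {A B} {n : ℕ} (hA : A.natDegree = n + 1) (hB : B.natDegree = n)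

include hA

lemma lc_ne_zero : A.leadingCoeff ≠ 0 := by
  rw [Ne, leadingCoeff_eq_zero]
  rintro rfl
  simp at hA

include hB

lemma natDegree_QT : (QT A B T).natDegree = n + 1 := by
  rw [QT, natDegree_add_eq_left_of_natDegree_lt, hA]
  refine lt_of_le_of_lt (natDegree_C_mul_le _ _) ?_
  omega

lemma leadingCoeff_QT : (QT A B T).leadingCoeff = A.leadingCoeff := by
  rw [leadingCoeff, leadingCoeff, natDegree_QT T hA hB, hA, QT, coeff_add, coeff_C_mul,
    coeff_eq_zero_of_natDegree_lt (show B.natDegree < n + 1 by omega), mul_zero, add_zero]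

lemma QT_ne_zero : QT A B T ≠ 0 := by
  intro h
  have := natDegree_QT T hA hB
  rw [h, natDegree_zero] at this
  omega

/-- the monic integer polynomial with roots `D z` -/
lemma monic_q : (QT A B T).integralNormalization.Monic :=
  monic_integralNormalization (QT_ne_zero T hA hB)

lemma natDegree_q : (QT A B T).integralNormalization.natDegree = n + 1 := by
  rw [natDegree_integralNormalization, natDegree_QT T hA hB]

lemma eval_q (z : ℂ) : (toC (QT A B T).integralNormalization).eval ((A.leadingCoeff : ℂ) * z) =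
    (A.leadingCoeff : ℂ) ^ n * (toC (QT A B T)).eval z := by
  have h := integralNormalization_eval₂_leadingCoeff_mul
    (p := QT A B T) (by rw [natDegree_QT T hA hB]; omega) (Int.castRingHom ℂ) z
  rw [leadingCoeff_QT T hA hB, natDegree_QT T hA hB] at h
  rw [toC, toC, eval_map, eval_map]
  simpa using h

lemma eval_q_eq_zero (z : ℂ) :
    (toC (QT A B T).integralNormalization).eval ((A.leadingCoeff : ℂ) * z) = 0 ↔
      (toC (QT A B T)).eval z = 0 := by
  rw [eval_q T hA hB, mul_eq_zero]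
  have : (A.leadingCoeff : ℂ) ^ n ≠ 0 := pow_ne_zero _ (by exact_mod_cast lc_ne_zero hA)
  simp [this]

lemma eval_q_eq_zero' (ω : ℂ) :
    (toC (QT A B T).integralNormalization).eval ω = 0 ↔
      (toC (QT A B T)).eval (ω / (A.leadingCoeff : ℂ)) = 0 := by
  have h0 : (A.leadingCoeff : ℂ) ≠ 0 := by exact_mod_cast lc_ne_zero hA
  rw [← eval_q_eq_zero T hA hB, mul_div_cancel₀ _ h0]

omit T in
lemma mahler_q : ∃ K : ℝ, 0 < K ∧ ∀ T : ℕ, 1 ≤ T →
    (toC (QT A B T).integralNormalization).mahlerMeasure ≤ K * T := by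
  set g : ℕ → ℝ := fun i => (|(A.coeff i : ℝ)| + |(B.coeff i : ℝ)|) *
    |(A.leadingCoeff : ℝ)| ^ (n - i) + 1 with hg
  have hgpos : ∀ i, 0 < g i := fun i => by positivity
  refine ⟨∑ i ∈ Finset.range (n + 2), g i, Finset.sum_pos (fun i _ => hgpos i) ⟨0, by simp⟩, ?_⟩
  intro T hT
  have hT1 : (1 : ℝ) ≤ T := by exact_mod_cast hT
  refine (mahlerMeasure_le_sum_norm_coeff _).trans ?_
  rw [sum_over_range _ (fun i => norm_zero), natDegree_toC, natDegree_q T hA hB, Finset.sum_mul]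
  refine Finset.sum_le_sum fun i _ => ?_
  rw [toC, coeff_map, integralNormalization_coeff]
  split_ifs with h
  · rw [map_one, norm_one]
    have h1 : 1 ≤ g i := by
      rw [hg]
      have : 0 ≤ (|(A.coeff i : ℝ)| + |(B.coeff i : ℝ)|) * |(A.leadingCoeff : ℝ)| ^ (n - i) := by
        positivity
      linarith
    nlinarith
  · rw [leadingCoeff_QT T hA hB, natDegree_QT T hA hB]
    have e1 : (Int.castRingHom ℂ) ((QT A B T).coeff i * A.leadingCoeff ^ (n + 1 - 1 - i)) =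
        (((A.coeff i : ℤ) : ℂ) + (T : ℂ) * ((B.coeff i : ℤ) : ℂ)) *
          ((A.leadingCoeff : ℤ) : ℂ) ^ (n - i) := by
      simp [QT]
    rw [e1, norm_mul, norm_pow, Complex.norm_intCast]
    have h2 : ‖((A.coeff i : ℤ) : ℂ) + (T : ℂ) * ((B.coeff i : ℤ) : ℂ)‖ ≤
        (|(A.coeff i : ℝ)| + |(B.coeff i : ℝ)|) * T := by
      refine (norm_add_le _ _).trans ?_
      rw [norm_mul, Complex.norm_intCast, Complex.norm_intCast, Complex.norm_natCast]
      have : |(A.coeff i : ℝ)| ≤ |(A.coeff i : ℝ)| * T :=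
        le_mul_of_one_le_right (abs_nonneg _) hT1
      nlinarith
    have h3 : 0 ≤ |(A.leadingCoeff : ℝ)| ^ (n - i) := by positivity
    calc ‖((A.coeff i : ℤ) : ℂ) + (T : ℂ) * ((B.coeff i : ℤ) : ℂ)‖ *
          |(A.leadingCoeff : ℝ)| ^ (n - i)
        ≤ (|(A.coeff i : ℝ)| + |(B.coeff i : ℝ)|) * T * |(A.leadingCoeff : ℝ)| ^ (n - i) :=
          mul_le_mul_of_nonneg_right h2 h3
      _ ≤ g i * T := by
          rw [hg]
          nlinarith

omit T in
lemma large_root (hn : 1 ≤ n) : ∃ (c : ℝ) (T0 : ℕ), 0 < c ∧ ∀ T : ℕ, T0 ≤ T → ∃ ω : ℂ,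
    (toC (QT A B T).integralNormalization).eval ω = 0 ∧ c * T ≤ ‖ω‖ := by
  have hb0 : B.coeff n ≠ 0 := by
    have : B.leadingCoeff ≠ 0 := by
      rw [Ne, leadingCoeff_eq_zero]
      rintro rfl
      simp at hB
      omega
    rwa [leadingCoeff, hB] at this
  have hbpos : 0 < |(B.coeff n : ℝ)| := abs_pos.2 (by exact_mod_cast hb0)
  obtain ⟨T0, hT0⟩ := exists_nat_gt (2 * |(A.coeff n : ℝ)| / |(B.coeff n : ℝ)|)
  refine ⟨|(B.coeff n : ℝ)| / (2 * (n + 1)), T0, by positivity, fun T hT => ?_⟩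
  have hTT : (T0 : ℝ) ≤ T := by exact_mod_cast hT
  have hTpos : (0 : ℝ) < T := by
    have : 0 ≤ 2 * |(A.coeff n : ℝ)| / |(B.coeff n : ℝ)| := by positivity
    linarith
  set p := toC (QT A B T).integralNormalization with hp
  have hpm : p.Monic := (monic_q T hA hB).map _
  have hpd : p.natDegree = n + 1 := by rw [hp, natDegree_toC, natDegree_q T hA hB]
  have hsum := (IsAlgClosed.splits p).nextCoeff_eq_neg_sum_roots_of_monic hpm
  have hnext : p.nextCoeff = ((A.coeff n : ℤ) : ℂ) + (T : ℂ) * ((B.coeff n : ℤ) : ℂ) := by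
    rw [nextCoeff_of_natDegree_pos (by omega), hpd, hp, toC, coeff_map,
      integralNormalization_coeff, if_neg]
    · rw [leadingCoeff_QT T hA hB, natDegree_QT T hA hB]
      simp [QT]
    · intro h
      have h1 := natDegree_eq_of_degree_eq_some h
      rw [natDegree_QT T hA hB] at h1
      omega
  by_contra hcon
  push Not at hcon
  have hcard : p.roots.card = n + 1 := by
    rw [← (IsAlgClosed.splits _).natDegree_eq_card_roots, hpd]
  have h1 : ‖p.roots.sum‖ < (n + 1) * (|(B.coeff n : ℝ)| / (2 * (n + 1)) * T) := by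
    have h2 : ‖p.roots.sum‖ ≤ (p.roots.map fun ω => ‖ω‖).sum := norm_multiset_sum_le _
    refine lt_of_le_of_lt h2 ?_
    have h3 : (p.roots.map fun ω => ‖ω‖).sum <
        (p.roots.map fun _ => |(B.coeff n : ℝ)| / (2 * (n + 1)) * T).sum := by
      refine Multiset.sum_lt_sum_of_nonempty ?_ ?_
      · intro h
        rw [h] at hcard
        simp at hcard
      · intro ω hω
        exact hcon ω ((mem_roots hpm.ne_zero).1 hω)
    rw [Multiset.map_const', Multiset.sum_replicate, hcard, nsmul_eq_mul] at h3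
    push_cast at h3
    exact h3
  have h4 : ‖p.roots.sum‖ = ‖((A.coeff n : ℤ) : ℂ) + (T : ℂ) * ((B.coeff n : ℤ) : ℂ)‖ := by
    rw [← hnext, hsum, norm_neg]
  have h5 : ‖(T : ℂ) * ((B.coeff n : ℤ) : ℂ)‖ ≤
      ‖((A.coeff n : ℤ) : ℂ) + (T : ℂ) * ((B.coeff n : ℤ) : ℂ)‖ + ‖((A.coeff n : ℤ) : ℂ)‖ := by
    have := norm_sub_le (((A.coeff n : ℤ) : ℂ) + (T : ℂ) * ((B.coeff n : ℤ) : ℂ))
      ((A.coeff n : ℤ) : ℂ)
    rwa [add_sub_cancel_left] at this
  rw [norm_mul, Complex.norm_natCast, Complex.norm_intCast, Complex.norm_intCast] at h5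
  have h6 : 2 * |(A.coeff n : ℝ)| < T * |(B.coeff n : ℝ)| := by
    rw [div_lt_iff₀ hbpos] at hT0
    nlinarith
  have h7 : ((n : ℝ) + 1) * (|(B.coeff n : ℝ)| / (2 * (n + 1)) * T) =
      T * |(B.coeff n : ℝ)| / 2 := by
    field_simp
  rw [h7, h4] at h1
  linarith

end QT

/-- **Criterion.** -/
theorem criterion (A B : ℤ[X]) (n r : ℕ) (κ : ℤ) (a b : ℂ) (K : ℝ) (hK : 0 ≤ K)
    (hn : 1 ≤ n) (hA : A.natDegree = n + 1) (hB : B.natDegree = n)
    (hab : a ^ 2 + a * b + b ^ 2 = (κ : ℂ)) (hne : a ≠ b) (hb : a + 2 * b ≠ 0)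
    (hBa : (toC B).eval a = 0) (hBa' : (toC B).derivative.eval a ≠ 0)
    (hBb' : (toC B).derivative.eval b ≠ 0) (hr : 1 ≤ r)
    (hcop : ∀ z : ℂ, (toC A).eval z = 0 → (toC B).eval z ≠ 0)
    (hinj : ∀ᶠ T : ℕ in atTop, ∀ y z : ℂ, (toC A).eval y + T * (toC B).eval y = 0 →
      (toC A).eval z + T * (toC B).eval z = 0 → y ≠ z → y ^ 2 + y * z + z ^ 2 ≠ (κ : ℂ))
    (hW : ∀ᶠ p : ℂ × ℂ in 𝓝 (a, b), p.1 ^ 2 + p.1 * p.2 + p.2 ^ 2 = (κ : ℂ) →
      ‖(toC A).eval p.2 * (toC B).eval p.1 - (toC A).eval p.1 * (toC B).eval p.2‖ ≤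
        K * ‖p.1 + p.2 - (a + b)‖ ^ r)
    (𝒞 : ℤ[X] → Prop) (h𝒞 : ∀ P, 𝒞 P → HasDistinctRoots P)
    (h𝒞' : ∀ P, HasDistinctRoots P → P.Monic → IrreducibleOverRat P → 𝒞 P) :
    (((r : ℝ) / 3 : ℝ) : EReal) ≤ sepExponent 𝒞 (n + 1) := by
  classical
  set D : ℤ := A.leadingCoeff with hD
  have hD0 : (D : ℂ) ≠ 0 := by exact_mod_cast lc_ne_zero hA
  obtain ⟨Kq, hKq, hMq⟩ := mahler_q hA hB
  obtain ⟨c, T0, hc, hlarge⟩ := large_root hA hB hn
  have hAa : (toC A).eval a ≠ 0 := fun h => hcop a h hBa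
  obtain ⟨T1, hT1⟩ := eventually_minpoly (fun T => (QT A B T).integralNormalization) (n + 1)
    Kq c (max T0 1) hc hKq (fun T _ => monic_q T hA hB) (fun T _ => natDegree_q T hA hB)
    (fun T hT => hMq T (by omega)) (fun T hT => hlarge T (by omega)) (by
      intro T T' ω h h'
      rw [eval_q_eq_zero' T hA hB, toC_QT] at h
      rw [eval_q_eq_zero' T' hA hB, toC_QT] at h'
      simp only [eval_add, eval_mul, eval_C] at h h'
      set z := ω / (A.leadingCoeff : ℂ)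
      have h1 : ((T : ℂ) - T') * (toC B).eval z = 0 := by linear_combination h - h'
      rcases mul_eq_zero.1 h1 with h2 | h2
      · exact_mod_cast sub_eq_zero.1 h2
      · exfalso
        rw [h2, mul_zero, add_zero] at h
        exact hcop z h h2)
  obtain ⟨K', htwo⟩ := two_roots (toC A) (toC B) (n + 1) r κ a b K hK hab hne hb hBa hBa' hBb'
    hAa hr (by
      intro T
      rw [← toC_QT, natDegree_toC, natDegree_QT T hA hB]) hW
  set E : ℤ := D ^ 2 * κ with hE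
  set M0 : ℝ := 2 ^ (n + 1) * ((1 + |(E : ℝ)|) ^ (n + 1) * Kq ^ 3) with hM0
  set Hc : ℕ := ⌈M0⌉₊ + 1 with hHc
  have hHcpos : (0 : ℝ) < Hc := by rw [hHc]; positivity
  have hHcM : M0 ≤ Hc := by
    rw [hHc]
    push_cast
    have := Nat.le_ceil M0
    linarith
  refine le_sepExponent h𝒞 (by omega) ((r : ℝ) / 3)
    (|(D : ℝ)| ^ 3 * |K'| * (Hc : ℝ) ^ ((r : ℝ) / 3)) ?_
  intro N
  obtain ⟨T, hTtwo, hTinj, hTN, hTT1, hTpos'⟩ := (htwo.and (hinj.and ((eventually_ge_atTop N).and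
    ((eventually_ge_atTop T1).and (eventually_ge_atTop 1))))).exists
  have hTpos : (0 : ℝ) < T := by exact_mod_cast hTpos'
  obtain ⟨ω, hω, hqω⟩ := hT1 T hTT1
  obtain ⟨z, w, hzw, hz, hw, hclose⟩ := hTtwo
  have hq0 : ∀ y : ℂ, (toC (minpoly ℤ ω)).eval y = 0 ↔
      (toC A).eval (y / D) + T * (toC B).eval (y / D) = 0 := by
    intro y
    rw [← hqω]
    rw [eval_q_eq_zero' T hA hB, toC_QT]
    simp
    rfl
  have hinjθ : ∀ y z : ℂ, (toC (minpoly ℤ ω)).eval y = 0 → (toC (minpoly ℤ ω)).eval z = 0 →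
      y ^ 3 - E * y = z ^ 3 - E * z → y = z := by
    intro y z hy hz h
    by_contra hyz
    have h1 : (y - z) * (y ^ 2 + y * z + z ^ 2 - E) = 0 := by linear_combination h
    have h2 := (mul_eq_zero.1 h1).resolve_left (sub_ne_zero.2 hyz)
    refine hTinj (y / D) (z / D) ((hq0 y).1 hy) ((hq0 z).1 hz) ?_ ?_
    · intro h3
      exact hyz (by field_simp at h3; exact h3)
    · rw [hE] at h2
      push_cast at h2
      field_simp
      linear_combination h2
  obtain ⟨P, hPm, hPd, hPirr, hProots⟩ := minpoly_theta hω E hinjθ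
  have hdω : (minpoly ℤ ω).natDegree = n + 1 := by
    rw [← hqω]; exact natDegree_q T hA hB
  refine ⟨Hc * T ^ 3, ?_, P, by rw [hPd, hdω], ?_, h𝒞' P (nodup_of_irreducible hPirr) hPm hPirr, ?_⟩
  · have h1 : T ≤ T ^ 3 := Nat.le_self_pow (by norm_num) T
    have h2 : T ^ 3 ≤ Hc * T ^ 3 := Nat.le_mul_of_pos_left _ (by omega)
    omega
  · rw [height_le_iff]
    intro i
    have h1 := height_theta (P := P) (q := minpoly ℤ ω) E hPm (minpoly.monic hω) hPd hProots i
    have h2 : (toC (minpoly ℤ ω)).mahlerMeasure ≤ Kq * T := by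
      rw [← hqω]; exact hMq T hTpos'
    rw [hdω] at h1
    have h3 : (toC (minpoly ℤ ω)).mahlerMeasure ^ 3 ≤ (Kq * T) ^ 3 :=
      pow_le_pow_left₀ (mahlerMeasure_nonneg _) h2 3
    have h4 : |((P.coeff i : ℤ) : ℝ)| ≤ Hc * T ^ 3 := by
      refine h1.trans ?_
      calc (2 : ℝ) ^ (n + 1) * ((1 + |(E : ℝ)|) ^ (n + 1) *
            (toC (minpoly ℤ ω)).mahlerMeasure ^ 3)
          ≤ 2 ^ (n + 1) * ((1 + |(E : ℝ)|) ^ (n + 1) * (Kq * T) ^ 3) := by gcongr
        _ = M0 * T ^ 3 := by rw [hM0]; ring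
        _ ≤ Hc * T ^ 3 := by gcongr
    have h5 : (((P.coeff i).natAbs : ℕ) : ℝ) = |((P.coeff i : ℤ) : ℝ)| := by
      rw [Nat.cast_natAbs]; simp
    rw [← h5] at h4
    exact_mod_cast h4
  · -- separation
    have hDz : ∀ z : ℂ, (toC A + C (T : ℂ) * toC B).eval z = 0 →
        (toC (minpoly ℤ ω)).eval (D * z) = 0 := by
      intro z hz
      rw [hq0, mul_div_cancel_left₀ _ hD0]
      simpa using hz
    have hPθ : ∀ z : ℂ, (toC A + C (T : ℂ) * toC B).eval z = 0 →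
        aeval ((D * z) ^ 3 - E * (D * z)) P = 0 := by
      intro z hz
      rw [← eval_toC]
      have h1 : (D * z) ^ 3 - E * (D * z) ∈ (toC P).roots := by
        rw [hProots]
        refine Multiset.mem_map.2 ⟨D * z, ?_, rfl⟩
        rw [mem_roots (toC_ne_zero (minpoly.ne_zero hω))]
        exact hDz z hz
      exact ((mem_roots (toC_ne_zero hPm.ne_zero)).1 h1)
    have hneθ : (D * z) ^ 3 - E * (D * z) ≠ (D * w) ^ 3 - E * (D * w) := by
      intro h
      have := hinjθ _ _ (hDz z hz) (hDz w hw) h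
      exact hzw (mul_left_cancel₀ hD0 this)
    refine (sep_le_dist hneθ (hPθ z hz) (hPθ w hw)).trans ?_
    rw [dist_eq_norm]
    have e1 : (D * z) ^ 3 - E * (D * z) - ((D * w) ^ 3 - E * (D * w)) =
        (D : ℂ) ^ 3 * ((z ^ 3 - κ * z) - (w ^ 3 - κ * w)) := by
      rw [hE]; push_cast; ring
    rw [e1, norm_mul, norm_pow, Complex.norm_intCast]
    have e2 : ((Hc * T ^ 3 : ℕ) : ℝ) ^ (-((r : ℝ) / 3)) =
        ((Hc : ℝ) ^ ((r : ℝ) / 3))⁻¹ * ((T : ℝ) ^ r)⁻¹ := by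
      push_cast
      rw [Real.mul_rpow hHcpos.le (by positivity), Real.rpow_neg hHcpos.le,
        Real.rpow_neg (by positivity), ← Real.rpow_natCast (T : ℝ) 3, ← Real.rpow_mul hTpos.le,
        ← Real.rpow_natCast (T : ℝ) r]
      congr 3
      push_cast
      ring
    rw [e2]
    have h5 : (0 : ℝ) < (Hc : ℝ) ^ ((r : ℝ) / 3) := Real.rpow_pos_of_pos hHcpos _
    have e3 : |(D : ℝ)| ^ 3 * |K'| * (Hc : ℝ) ^ ((r : ℝ) / 3) *
        (((Hc : ℝ) ^ ((r : ℝ) / 3))⁻¹ * ((T : ℝ) ^ r)⁻¹) = |(D : ℝ)| ^ 3 * (|K'| / (T : ℝ) ^ r) := by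
      field_simp
    rw [e3]
    refine mul_le_mul_of_nonneg_left (hclose.trans ?_) (by positivity)
    gcongr
    exact le_abs_self _

end Pool.Agent.Lib.MP_625f41_nt.H49
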