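import Mathlib

/-!
# The polynomials `Θ_k`

`Θ_1 = Θ_2 = 1` and `X Θ_{k+1} = Θ_k - λ_{k-1} (1 - X)^2 Θ_{k-1}`.
-/

open Polynomial

namespace Pool.Agent.Lib.MP_625f41_nt.H49

/-- One step of the recursion.  `q = X (9 X^2 - 15 X + 4)`. -/
lemma theta_step (U V α₀ α₁ α₂ : ℚ[X]) (lam lam' g h : ℚ)
    (hi : X * (9 * X ^ 2 - 15 * X + 4) * derivative V =
      α₁ * V + C (g * lam) * (1 - X) * U)
    (hii : (1 - X) * (X * (9 * X ^ 2 - 15 * X + 4)) * derivative U =
      ((1 - X) * α₀ + C h) * U - C h * X * V)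
    (hgh : g = h + 4) (hg : g ≠ 0)
    (h1 : α₁.eval 0 = -g)
    (h20 : α₂ - α₀ = -8 + 3 * X + 9 * X ^ 2)
    (h12 : α₁ - α₂ - (9 * X ^ 2 - 15 * X + 4) =
      X * (1 - X) * (C ((g + 4) * lam') - C (h * lam))) :
    ∃ W : ℚ[X], X * W = V - C lam * (1 - X) ^ 2 * U ∧
      X * (9 * X ^ 2 - 15 * X + 4) * derivative W =
        α₂ * W + C ((g + 4) * lam') * (1 - X) * V ∧
      (1 - X) * (X * (9 * X ^ 2 - 15 * X + 4)) * derivative V =
        ((1 - X) * α₁ + C g) * V - C g * X * W := by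
  have h0 : (V - C lam * (1 - X) ^ 2 * U).eval 0 = 0 := by
    have := congrArg (fun p : ℚ[X] => p.eval 0) hi
    simp only [eval_mul, eval_X, eval_add, eval_sub, eval_one, eval_C, eval_pow, eval_ofNat,
      h1, zero_mul] at this
    simp only [eval_sub, eval_mul, eval_C, eval_pow, eval_one, eval_X]
    have h2 : g * (V.eval 0 - lam * U.eval 0) = 0 := by linear_combination this
    have h3 := (mul_eq_zero.1 h2).resolve_left hg
    linear_combination h3
  obtain ⟨W, hW⟩ : X ∣ V - C lam * (1 - X) ^ 2 * U := by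
    rw [X_dvd_iff, coeff_zero_eq_eval_zero]
    exact h0
  refine ⟨W, hW.symm, ?_, ?_⟩
  · have hd : W + X * derivative W = derivative V - C lam * (-(2 * (1 - X))) * U
        - C lam * (1 - X) ^ 2 * derivative U := by
      have := congrArg derivative hW.symm
      rw [derivative_mul, derivative_X, one_mul, derivative_sub, derivative_mul, derivative_mul,
        derivative_C, zero_mul, zero_add] at this
      rw [this]
      have h4 : derivative ((1 - X : ℚ[X]) ^ 2) = -(2 * (1 - X)) := by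
        rw [derivative_pow]
        simp only [Nat.cast_ofNat, Nat.add_one_sub_one, pow_one, derivative_sub, derivative_one,
          derivative_X, zero_sub, map_ofNat]
        ring
      rw [h4]
      ring
    have hX : (X : ℚ[X]) ≠ 0 := X_ne_zero
    apply mul_left_cancel₀ hX
    have hgl : (C (g * lam) : ℚ[X]) = C h * C lam + 4 * C lam := by
      rw [hgh, ← C_mul]
      have : (4 : ℚ[X]) = C 4 := rfl
      rw [this, ← C_mul, ← C_add]
      congr 1
      ring
    have hhl : (C (h * lam) : ℚ[X]) = C h * C lam := by rw [C_mul]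
    rw [hgl] at hi
    rw [hhl] at h12
    linear_combination (X * (9 * X ^ 2 - 15 * X + 4)) * hd + hi
      - C lam * (1 - X) * hii - (α₂ + (9 * X ^ 2 - 15 * X + 4)) * hW.symm
      + C lam * (1 - X) ^ 2 * U * h20 + V * h12
  · have hgl : (C (g * lam) : ℚ[X]) = C g * C lam := by rw [C_mul]
    rw [hgl] at hi
    linear_combination (1 - X) * hi + C g * hW.symm


lemma eval_one_step {U V W : ℚ[X]} {lam : ℚ} (hW : X * W = V - C lam * (1 - X) ^ 2 * U) :
    W.eval 1 = V.eval 1 := by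
  have := congrArg (fun p : ℚ[X] => p.eval 1) hW
  simpa using this

lemma natDegree_step {U V W : ℚ[X]} {lam : ℚ} (hlam : lam ≠ 0) (hU : U ≠ 0)
    (hW : X * W = V - C lam * (1 - X) ^ 2 * U) (hV : V.natDegree ≤ U.natDegree + 1) :
    W.natDegree = U.natDegree + 1 ∧ W ≠ 0 := by
  have h1 : (C lam * (1 - X) ^ 2 * U).natDegree = U.natDegree + 2 := by
    have h2 : ((1 - X : ℚ[X]) ^ 2).natDegree = 2 := by
      rw [natDegree_pow]
      have : (1 - X : ℚ[X]).natDegree = 1 := by
        rw [← natDegree_neg, neg_sub]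
        have := natDegree_X_sub_C (1 : ℚ)
        rwa [map_one] at this
      rw [this]
    have h3 : ((1 - X : ℚ[X]) ^ 2) ≠ 0 := by
      intro h
      rw [h] at h2
      simp at h2
    rw [mul_assoc, natDegree_C_mul hlam, natDegree_mul h3 hU, h2]
    ring
  have h4 : (X * W).natDegree = U.natDegree + 2 := by
    rw [hW, natDegree_sub_eq_right_of_natDegree_lt (by omega), h1]
  have hW0 : W ≠ 0 := by
    rintro rfl
    simp at h4
  rw [natDegree_mul X_ne_zero hW0, natDegree_X] at h4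
  exact ⟨by omega, hW0⟩

lemma wedge_step {U V W : ℚ[X]} {lam : ℚ} (hW : X * W = V - C lam * (1 - X) ^ 2 * U)
    (y z : ℂ) (hyz : y ^ 2 + y * z + z ^ 2 = 1) :
    y ^ 2 * aeval (y ^ 2) W * aeval (z ^ 2) V - z ^ 2 * aeval (z ^ 2) W * aeval (y ^ 2) V =
      (lam : ℂ) * (y + z) ^ 2 *
        (y ^ 2 * aeval (y ^ 2) V * aeval (z ^ 2) U - z ^ 2 * aeval (z ^ 2) V * aeval (y ^ 2) U) := by
  have h1 : ∀ s : ℂ, s * aeval s W = aeval s V - (lam : ℂ) * (1 - s) ^ 2 * aeval s U := by
    intro s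
    have := congrArg (fun p : ℚ[X] => aeval s p) hW
    simpa [aeval_def] using this
  have hy := h1 (y ^ 2)
  have hz := h1 (z ^ 2)
  have e1 : 1 - y ^ 2 = z * (y + z) := by linear_combination -hyz
  have e2 : 1 - z ^ 2 = y * (y + z) := by linear_combination -hyz
  rw [e1] at hy
  rw [e2] at hz
  linear_combination aeval (z ^ 2) V * hy - aeval (y ^ 2) V * hz

/-- The data used in the construction, for `m ≥ 1` (`U = Θ_{2m}`, `V = Θ_{2m+1}`). -/
theorem exists_theta (m : ℕ) (hm : 1 ≤ m) : ∃ U V : ℚ[X],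
    X * (9 * X ^ 2 - 15 * X + 4) * derivative V =
      (-C (8 * (m : ℚ) + 2) + C (3 * (m : ℚ)) * X + C (9 * (m : ℚ)) * X ^ 2) * V +
        C ((8 * (m : ℚ) + 2) *
          (3 / 2 * ((3 * (m : ℚ) + 1) * (6 * m - 1) / ((4 * m - 1) * (4 * m + 1))))) *
          (1 - X) * U ∧
    (1 - X) * (X * (9 * X ^ 2 - 15 * X + 4)) * derivative U =
      ((1 - X) * (-C (8 * (m : ℚ) - 2) + C (3 * ((m : ℚ) + 1)) * X +
        C (9 * ((m : ℚ) - 1)) * X ^ 2) + C (8 * (m : ℚ) - 2)) * U - C (8 * (m : ℚ) - 2) * X * V ∧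
    U.eval 1 = 1 ∧ V.eval 1 = 1 ∧ U.eval 0 ≠ 0 ∧ U ≠ 0 ∧ V ≠ 0 ∧
    U.natDegree = m - 1 ∧ V.natDegree = m ∧
    ∃ c : ℚ, c ≠ 0 ∧ ∀ y z : ℂ, y ^ 2 + y * z + z ^ 2 = 1 →
      y ^ 2 * aeval (y ^ 2) V * aeval (z ^ 2) U - z ^ 2 * aeval (z ^ 2) V * aeval (y ^ 2) U =
        (c : ℂ) * (y - z) * (y + z) ^ (4 * m - 1) := by
  induction m, hm using Nat.le_induction with
  | base =>
    refine ⟨1, 2 - X, ?_, ?_, ?_, ?_, ?_, one_ne_zero, ?_, ?_, ?_, 1, one_ne_zero, ?_⟩
    · norm_num
      simp only [map_ofNat]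
      have e1 : (C (10 : ℚ) : ℚ[X]) = 10 := rfl
      have e2 : (C (20 : ℚ) : ℚ[X]) = 20 := rfl
      ring
    · norm_num
      ring
    · simp
    · norm_num
    · simp
    · intro h
      have := congrArg (fun p : ℚ[X] => p.eval 0) h
      simp at this
    · simp
    · have : (2 - X : ℚ[X]).natDegree = 1 := by
        rw [← natDegree_neg, neg_sub]
        exact natDegree_X_sub_C (2 : ℚ)
      rw [this]
    · intro y z hyz
      simp only [map_sub, map_ofNat, aeval_X, map_one, Rat.cast_one]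
      linear_combination (y ^ 2 - z ^ 2) * (-2) * hyz
  | succ m hm ih =>
    obtain ⟨U, V, hi, hii, hU1, hV1, hU0, hU, hV, hdU, hdV, c, hc, hw⟩ := ih
    have hmq : (1 : ℚ) ≤ m := by exact_mod_cast hm
    have n1 : (4 * (m : ℚ) - 1) ≠ 0 := by linarith
    have n2 : (4 * (m : ℚ) + 1) ≠ 0 := by linarith
    have n3 : (4 * (m : ℚ) + 3) ≠ 0 := by linarith
    have n4 : (4 * (m : ℚ) + 5) ≠ 0 := by linarith
    set l0 : ℚ := 3 / 2 * ((3 * (m : ℚ) + 1) * (6 * m - 1) / ((4 * m - 1) * (4 * m + 1))) with hl0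
    set l1 : ℚ := 3 / 2 * ((3 * (m : ℚ) + 2) * (6 * m + 1) / ((4 * m + 1) * (4 * m + 3))) with hl1
    set l2 : ℚ := 3 / 2 * ((3 * (m : ℚ) + 4) * (6 * m + 5) / ((4 * m + 3) * (4 * m + 5))) with hl2
    have hl0' : l0 ≠ 0 := by
      rw [hl0]
      have : (6 * (m : ℚ) - 1) ≠ 0 := by linarith
      positivity
    have hl1' : l1 ≠ 0 := by rw [hl1]; positivity
    obtain ⟨W, hW, hi1, hii1⟩ := theta_step U V
      (-C (8 * (m : ℚ) - 2) + C (3 * ((m : ℚ) + 1)) * X + C (9 * ((m : ℚ) - 1)) * X ^ 2)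
      (-C (8 * (m : ℚ) + 2) + C (3 * (m : ℚ)) * X + C (9 * (m : ℚ)) * X ^ 2)
      (-C (8 * (m : ℚ) + 6) + C (3 * ((m : ℚ) + 2)) * X + C (9 * (m : ℚ)) * X ^ 2)
      l0 l1 (8 * (m : ℚ) + 2) (8 * (m : ℚ) - 2) hi hii (by ring) (by linarith)
      (by simp) (by
        simp only [C_add, C_sub, C_mul, map_ofNat, map_one, map_natCast]
        ring) (by
        have : (8 * (m : ℚ) + 2 + 4) * l1 = (8 * (m : ℚ) - 2) * l0 + 9 := by
          have e1 : (4 * (m : ℚ) - 1) * l0 =
              3 / 2 * ((3 * (m : ℚ) + 1) * (6 * m - 1) / (4 * m + 1)) := by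
            rw [hl0]
            generalize (4 * (m : ℚ) - 1) = t at n1 ⊢
            field_simp
          have e2 : (4 * (m : ℚ) + 3) * l1 =
              3 / 2 * ((3 * (m : ℚ) + 2) * (6 * m + 1) / (4 * m + 1)) := by
            rw [hl1]
            field_simp
          have e3 : 3 / 2 * ((3 * (m : ℚ) + 2) * (6 * m + 1) / (4 * m + 1)) =
              3 / 2 * ((3 * (m : ℚ) + 1) * (6 * m - 1) / (4 * m + 1)) + 9 / 2 := by
            field_simp
            ring
          linear_combination 2 * e2 - 2 * e1 + 2 * e3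
        rw [this]
        simp only [C_add, C_sub, C_mul, map_ofNat, map_one, map_natCast]
        ring)
    obtain ⟨Z, hZ, hi2, hii2⟩ := theta_step V W
      (-C (8 * (m : ℚ) + 2) + C (3 * (m : ℚ)) * X + C (9 * (m : ℚ)) * X ^ 2)
      (-C (8 * (m : ℚ) + 6) + C (3 * ((m : ℚ) + 2)) * X + C (9 * (m : ℚ)) * X ^ 2)
      (-C (8 * (m : ℚ) + 10) + C (3 * ((m : ℚ) + 1)) * X + C (9 * ((m : ℚ) + 1)) * X ^ 2)
      l1 l2 (8 * (m : ℚ) + 6) (8 * (m : ℚ) + 2)
      (by rw [hi1]; congr 4; ring) hii1 (by ring) (by linarith)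
      (by simp) (by
        simp only [C_add, C_mul, map_ofNat, map_one, map_natCast]
        ring) (by
        have : (8 * (m : ℚ) + 6 + 4) * l2 = (8 * (m : ℚ) + 2) * l1 + 18 := by
          rw [hl1, hl2]
          field_simp
          ring
        rw [this]
        simp only [C_add, C_sub, C_mul, map_ofNat, map_one, map_natCast]
        ring)
    obtain ⟨hdW, hW0⟩ := natDegree_step hl0' hU hW (by omega)
    obtain ⟨hdZ, hZ0⟩ := natDegree_step hl1' hV hZ (by omega)
    refine ⟨W, Z, ?_, ?_, ?_, ?_, ?_, hW0, hZ0, ?_, ?_, l1 * l0 * c, ?_, ?_⟩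
    · rw [hi2]
      push_cast
      congr 1
      · congr 1
        simp only [C_add, C_sub, C_mul, map_ofNat, map_one, map_natCast]
        ring
      · congr 3
        rw [hl2]
        ring
    · rw [hii2]
      push_cast
      simp only [C_add, C_sub, C_mul, map_ofNat, map_one, map_natCast]
      ring
    · rw [eval_one_step hW, hV1]
    · rw [eval_one_step hZ, eval_one_step hW, hV1]
    · have hV0 : V.eval 0 = l0 * U.eval 0 := by
        have := congrArg (fun p : ℚ[X] => p.eval 0) hi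
        simp only [eval_mul, eval_X, eval_add, eval_sub, eval_neg, eval_one, eval_C, eval_pow,
          eval_ofNat, zero_mul] at this
        have h8 : (8 * (m : ℚ) + 2) ≠ 0 := by linarith
        apply mul_left_cancel₀ h8
        linear_combination this
      have hW0' : W.eval 0 = l1 * V.eval 0 := by
        have := congrArg (fun p : ℚ[X] => p.eval 0) hi1
        simp only [eval_mul, eval_X, eval_add, eval_sub, eval_neg, eval_one, eval_C, eval_pow,
          eval_ofNat, zero_mul] at this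
        have h8 : (8 * (m : ℚ) + 6) ≠ 0 := by linarith
        apply mul_left_cancel₀ h8
        linear_combination this
      rw [hW0', hV0]
      exact mul_ne_zero hl1' (mul_ne_zero hl0' hU0)
    · omega
    · omega
    · positivity
    · intro y z hyz
      rw [wedge_step hZ y z hyz, wedge_step hW y z hyz, hw y z hyz]
      have : 4 * (m + 1) - 1 = (4 * m - 1) + 4 := by omega
      rw [this, pow_add]
      push_cast
      ring

end Pool.Agent.Lib.MP_625f41_nt.H49
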