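import Pool.Agent.Lib.MP_625f41_nt.H49.Crit
import Pool.Agent.Lib.MP_625f41_nt.H49.Theta

/-!
# The families for odd and even degree
-/

open Polynomial Filter Topology

namespace Pool.Agent.Lib.MP_625f41_nt.H49

lemma exists_int (p : ℚ[X]) : ∃ (d : ℤ) (p' : ℤ[X]), d ≠ 0 ∧
    p'.map (Int.castRingHom ℚ) = C (d : ℚ) * p := by
  obtain ⟨b, hb0, hb⟩ := IsLocalization.integerNormalization_spec (nonZeroDivisors ℤ) p
  refine ⟨b, IsLocalization.integerNormalization (nonZeroDivisors ℤ) p,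
    nonZeroDivisors.ne_zero hb0, ?_⟩
  have h : (algebraMap ℤ ℚ) = Int.castRingHom ℚ := rfl
  rw [h] at hb
  rw [hb]
  ext i
  rw [coeff_C_mul, coeff_smul]
  simp

lemma eval_int {p : ℚ[X]} {d : ℤ} {p' : ℤ[X]}
    (h : p'.map (Int.castRingHom ℚ) = C (d : ℚ) * p) (z : ℂ) :
    (toC p').eval z = d * aeval z p := by
  rw [toC_eq_mapQ, h, Polynomial.map_mul, eval_mul, eval_map_algebraMap]
  simp

lemma eval_derivative_int {p : ℚ[X]} {d : ℤ} {p' : ℤ[X]}
    (h : p'.map (Int.castRingHom ℚ) = C (d : ℚ) * p) (z : ℂ) :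
    (toC p').derivative.eval z = d * aeval z p.derivative := by
  rw [toC_eq_mapQ, h, derivative_map, derivative_mul, derivative_C, zero_mul, zero_add,
    Polynomial.map_mul, eval_mul, eval_map_algebraMap]
  simp

lemma natDegree_int {p : ℚ[X]} {d : ℤ} {p' : ℤ[X]} (hd : d ≠ 0)
    (h : p'.map (Int.castRingHom ℚ) = C (d : ℚ) * p) : p'.natDegree = p.natDegree := by
  rw [← natDegree_map_eq_of_injective (RingHom.injective_int (Int.castRingHom ℚ)) p', h,
    natDegree_C_mul (by exact_mod_cast hd)]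

lemma exists_partner (y : ℂ) : ∃ z, z ≠ y ∧ y ^ 2 + y * z + z ^ 2 = 1 := by
  obtain ⟨s, hs⟩ := IsAlgClosed.exists_pow_nat_eq (4 - 3 * y ^ 2) (n := 2) (by norm_num)
  by_cases h : (-y + s) / 2 = y
  · refine ⟨(-y - s) / 2, ?_, by linear_combination (1 / 4) * hs⟩
    intro h'
    have h1 : s = 3 * y := by linear_combination 2 * h
    have h2 : s = -3 * y := by linear_combination -2 * h'
    have h3 : y = 0 := by linear_combination (1 / 6) * h2 - (1 / 6) * h1
    rw [h1, h3] at hs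
    norm_num at hs
  · exact ⟨(-y + s) / 2, h, by linear_combination (1 / 4) * hs⟩

/-- The criterion for rational polynomials and the conic `y^2 + y z + z^2 = 1`. -/
theorem criterionQ (A B : ℚ[X]) (n r : ℕ) (hn : 1 ≤ n) (hA : A.natDegree = n + 1)
    (hB : B.natDegree = n) (hB1 : B.eval 1 = 0)
    (hB1' : B.derivative.eval 1 ≠ 0) (hB2' : B.derivative.eval (-1) ≠ 0) (hr : 1 ≤ r)
    (hP : ∀ y z : ℂ, y ^ 2 + y * z + z ^ 2 = 1 → y ≠ z →
      aeval z A * aeval y B = aeval y A * aeval z B → aeval y B = 0 ∧ aeval y A ≠ 0)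
    (g : ℂ × ℂ → ℂ) (hg : ContinuousAt g (1, -1))
    (hW : ∀ y z : ℂ, y ^ 2 + y * z + z ^ 2 = 1 →
      aeval z A * aeval y B - aeval y A * aeval z B = g (y, z) * (y + z) ^ r)
    (𝒞 : ℤ[X] → Prop) (h𝒞 : ∀ P, 𝒞 P → HasDistinctRoots P)
    (h𝒞' : ∀ P, HasDistinctRoots P → P.Monic → IrreducibleOverRat P → 𝒞 P) :
    (((r : ℝ) / 3 : ℝ) : EReal) ≤ sepExponent 𝒞 (n + 1) := by
  obtain ⟨d, A', hd, hA'⟩ := exists_int A
  obtain ⟨e, B', he, hB'⟩ := exists_int B
  have hdC : (d : ℂ) ≠ 0 := by exact_mod_cast hd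
  have heC : (e : ℂ) ≠ 0 := by exact_mod_cast he
  have hcopQ : ∀ z : ℂ, aeval z A = 0 → aeval z B ≠ 0 := by
    intro y hy hy'
    obtain ⟨z, hz, hyz⟩ := exists_partner y
    exact (hP y z hyz hz.symm (by rw [hy, hy']; ring)).2 hy
  have haB1 : aeval (1 : ℂ) B = 0 := by
    have := aeval_algebraMap_apply_eq_algebraMap_eval (A := ℂ) (1 : ℚ) B
    rw [map_one, hB1, map_zero] at this
    exact this
  have haB1' : aeval (1 : ℂ) B.derivative ≠ 0 := by
    have := aeval_algebraMap_apply_eq_algebraMap_eval (A := ℂ) (1 : ℚ) B.derivative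
    rw [map_one] at this
    rw [this]
    exact (_root_.map_ne_zero _).2 hB1'
  have haB2' : aeval (-1 : ℂ) B.derivative ≠ 0 := by
    have := aeval_algebraMap_apply_eq_algebraMap_eval (A := ℂ) (-1 : ℚ) B.derivative
    rw [map_neg, map_one] at this
    rw [this]
    exact (_root_.map_ne_zero _).2 hB2'
  refine criterion A' B' n r 1 1 (-1) ((‖g (1, -1)‖ + 1) * ‖(d : ℂ)‖ * ‖(e : ℂ)‖) (by positivity)
    hn ?_ ?_ (by norm_num) (by norm_num) (by norm_num) ?_ ?_ ?_ hr ?_ ?_ ?_ 𝒞 h𝒞 h𝒞'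
  · rw [natDegree_int hd hA', hA]
  · rw [natDegree_int he hB', hB]
  · rw [eval_int hB', haB1, mul_zero]
  · rw [eval_derivative_int hB']
    exact mul_ne_zero heC haB1'
  · rw [eval_derivative_int hB']
    exact mul_ne_zero heC haB2'
  · intro z hz
    rw [eval_int hA'] at hz
    rw [eval_int hB']
    exact mul_ne_zero heC (hcopQ z ((mul_eq_zero.1 hz).resolve_left hdC))
  · refine Eventually.of_forall fun T => ?_
    intro y z hy hz hyz hcon
    rw [eval_int hA', eval_int hB'] at hy hz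
    rw [Int.cast_one] at hcon
    have h1 : aeval z A * aeval y B = aeval y A * aeval z B := by
      have h2 : (d : ℂ) * (aeval z A * aeval y B - aeval y A * aeval z B) = 0 := by
        linear_combination aeval y B * hz - aeval z B * hy
      exact sub_eq_zero.1 ((mul_eq_zero.1 h2).resolve_left hdC)
    obtain ⟨h3, h4⟩ := hP y z hcon hyz h1
    rw [h3, mul_zero, mul_zero, add_zero] at hy
    exact h4 ((mul_eq_zero.1 hy).resolve_left hdC)
  · have h1 : ∀ᶠ p : ℂ × ℂ in 𝓝 (1, -1), ‖g p‖ ≤ ‖g (1, -1)‖ + 1 :=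
      hg.norm.eventually_le_const (by linarith)
    filter_upwards [h1] with p hp hcon
    rw [Int.cast_one] at hcon
    rw [eval_int hA', eval_int hA', eval_int hB', eval_int hB']
    have h2 : (d : ℂ) * aeval p.2 A * (e * aeval p.1 B) - d * aeval p.1 A * (e * aeval p.2 B) =
        g p * d * e * (p.1 + p.2 - (1 + -1)) ^ r := by
      have := hW p.1 p.2 hcon
      rw [show p.1 + p.2 - (1 + -1) = p.1 + p.2 by ring]
      linear_combination (d : ℂ) * e * this
    rw [h2, norm_mul, norm_mul, norm_mul, norm_pow]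
    gcongr

lemma natDegree_X_sq_sub_one : (X ^ 2 - 1 : ℚ[X]).natDegree = 2 := by
  have := natDegree_X_pow_sub_C (n := 2) (r := (1 : ℚ))
  rwa [map_one] at this

/-- Odd degree `n = 2 m + 1`. -/
theorem odd_case (m : ℕ) (hm : 1 ≤ m)
    (𝒞 : ℤ[X] → Prop) (h𝒞 : ∀ P, 𝒞 P → HasDistinctRoots P)
    (h𝒞' : ∀ P, HasDistinctRoots P → P.Monic → IrreducibleOverRat P → 𝒞 P) :
    ((((4 * m : ℕ) : ℝ) / 3 : ℝ) : EReal) ≤ sepExponent 𝒞 (2 * m + 1) := by
  obtain ⟨U, V, -, -, hU1, hV1, hU0, hU, hV, hdU, hdV, c, hc, hw⟩ := exists_theta m hm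
  have hcC : (c : ℂ) ≠ 0 := by exact_mod_cast hc
  have hsq : (X ^ 2 - 1 : ℚ[X]) ≠ 0 := by
    intro h
    have := natDegree_X_sq_sub_one
    rw [h] at this
    simp at this
  have hUc : U.comp (X ^ 2) ≠ 0 := by
    intro h
    rw [comp_eq_zero_iff] at h
    rcases h with h | ⟨_, h⟩
    · exact hU h
    · have := congrArg natDegree h
      rw [natDegree_X_pow, natDegree_C] at this
      omega
  have hVc : V.comp (X ^ 2) ≠ 0 := by
    intro h
    rw [comp_eq_zero_iff] at h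
    rcases h with h | ⟨_, h⟩
    · exact hV h
    · have := congrArg natDegree h
      rw [natDegree_X_pow, natDegree_C] at this
      omega
  have hAe : ∀ z : ℂ, aeval z (X * V.comp (X ^ 2) : ℚ[X]) = z * aeval (z ^ 2) V := by
    intro z; simp [aeval_comp]
  have hBe : ∀ z : ℂ, aeval z ((X ^ 2 - 1) * U.comp (X ^ 2) : ℚ[X]) =
      (z ^ 2 - 1) * aeval (z ^ 2) U := by
    intro z; simp [aeval_comp]
  have hWW : ∀ y z : ℂ, y ^ 2 + y * z + z ^ 2 = 1 →
      aeval z (X * V.comp (X ^ 2) : ℚ[X]) * aeval y ((X ^ 2 - 1) * U.comp (X ^ 2) : ℚ[X]) -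
        aeval y (X * V.comp (X ^ 2) : ℚ[X]) * aeval z ((X ^ 2 - 1) * U.comp (X ^ 2) : ℚ[X]) =
        (c * (y - z)) * (y + z) ^ (4 * m) := by
    intro y z hyz
    rw [hAe, hAe, hBe, hBe]
    have h1 := hw y z hyz
    have e1 : y ^ 2 - 1 = -(z * (y + z)) := by linear_combination hyz
    have e2 : z ^ 2 - 1 = -(y * (y + z)) := by linear_combination hyz
    rw [e1, e2]
    have e3 : (y + z) ^ (4 * m) = (y + z) * (y + z) ^ (4 * m - 1) := by
      rw [← pow_succ']
      congr 1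
      omega
    rw [e3]
    linear_combination (y + z) * h1
  have hV1C : aeval (1 : ℂ) V = 1 := by
    have := aeval_algebraMap_apply_eq_algebraMap_eval (A := ℂ) (1 : ℚ) V
    rw [map_one, hV1, map_one] at this
    exact this
  refine criterionQ (X * V.comp (X ^ 2)) ((X ^ 2 - 1) * U.comp (X ^ 2)) (2 * m) (4 * m)
    (by omega) ?_ ?_ ?_ ?_ ?_ (by omega) ?_ (fun p => c * (p.1 - p.2)) ?_ hWW 𝒞 h𝒞 h𝒞'
  · rw [natDegree_mul X_ne_zero hVc, natDegree_X, natDegree_comp, natDegree_X_pow, hdV]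
    omega
  · rw [natDegree_mul hsq hUc, natDegree_X_sq_sub_one, natDegree_comp, natDegree_X_pow, hdU]
    omega
  · simp
  · simp [derivative_mul, hU1]
  · simp [derivative_mul, hU1]
  · intro y z hyz hne h
    have h1 := hWW y z hyz
    rw [h, sub_self] at h1
    have h2 : (y + z) ^ (4 * m) = 0 := by
      rcases mul_eq_zero.1 h1.symm with h3 | h3
      · exact absurd h3 (mul_ne_zero hcC (sub_ne_zero.2 hne))
      · exact h3
    have h3 : y + z = 0 := pow_eq_zero_iff (by omega) |>.1 h2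
    have h4 : y ^ 2 = 1 := by linear_combination hyz - z * h3
    rw [hAe, hBe, h4]
    refine ⟨by ring, ?_⟩
    rw [hV1C, mul_one]
    rintro rfl
    norm_num at h4
  · fun_prop

/-- Even degree `n = 2 m + 2`. -/
theorem even_case (m : ℕ) (hm : 1 ≤ m)
    (𝒞 : ℤ[X] → Prop) (h𝒞 : ∀ P, 𝒞 P → HasDistinctRoots P)
    (h𝒞' : ∀ P, HasDistinctRoots P → P.Monic → IrreducibleOverRat P → 𝒞 P) :
    ((((4 * m : ℕ) : ℝ) / 3 : ℝ) : EReal) ≤ sepExponent 𝒞 (2 * m + 2) := by
  obtain ⟨U, V, -, -, hU1, hV1, hU0, hU, hV, hdU, hdV, c, hc, hw⟩ := exists_theta m hm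
  have hcC : (c : ℂ) ≠ 0 := by exact_mod_cast hc
  have hsq : (X ^ 2 - 1 : ℚ[X]) ≠ 0 := by
    intro h
    have := natDegree_X_sq_sub_one
    rw [h] at this
    simp at this
  have hUc : U.comp (X ^ 2) ≠ 0 := by
    intro h
    rw [comp_eq_zero_iff] at h
    rcases h with h | ⟨_, h⟩
    · exact hU h
    · have := congrArg natDegree h
      rw [natDegree_X_pow, natDegree_C] at this
      omega
  have hVc : V.comp (X ^ 2) ≠ 0 := by
    intro h
    rw [comp_eq_zero_iff] at h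
    rcases h with h | ⟨_, h⟩
    · exact hV h
    · have := congrArg natDegree h
      rw [natDegree_X_pow, natDegree_C] at this
      omega
  have hX2 : (X ^ 2 : ℚ[X]) ≠ 0 := pow_ne_zero _ X_ne_zero
  have hAe : ∀ z : ℂ, aeval z (X ^ 2 * V.comp (X ^ 2) + U.comp (X ^ 2) : ℚ[X]) =
      z ^ 2 * aeval (z ^ 2) V + aeval (z ^ 2) U := by
    intro z; simp [aeval_comp]
  have hBe : ∀ z : ℂ, aeval z (X * (X ^ 2 - 1) * U.comp (X ^ 2) : ℚ[X]) =
      z * (z ^ 2 - 1) * aeval (z ^ 2) U := by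
    intro z; simp [aeval_comp]
  have hWW : ∀ y z : ℂ, y ^ 2 + y * z + z ^ 2 = 1 →
      aeval z (X ^ 2 * V.comp (X ^ 2) + U.comp (X ^ 2) : ℚ[X]) *
          aeval y (X * (X ^ 2 - 1) * U.comp (X ^ 2) : ℚ[X]) -
        aeval y (X ^ 2 * V.comp (X ^ 2) + U.comp (X ^ 2) : ℚ[X]) *
          aeval z (X * (X ^ 2 - 1) * U.comp (X ^ 2) : ℚ[X]) =
        (c * (y - z) * (y * z)) * (y + z) ^ (4 * m) := by
    intro y z hyz
    rw [hAe, hAe, hBe, hBe]
    have h1 := hw y z hyz
    have e1 : y ^ 2 - 1 = -(z * (y + z)) := by linear_combination hyz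
    have e2 : z ^ 2 - 1 = -(y * (y + z)) := by linear_combination hyz
    rw [e1, e2]
    have e3 : (y + z) ^ (4 * m) = (y + z) * (y + z) ^ (4 * m - 1) := by
      rw [← pow_succ']
      congr 1
      omega
    rw [e3]
    linear_combination (y * z * (y + z)) * h1
  have hev : ∀ p : ℚ[X], aeval (1 : ℂ) p = ((p.eval 1 : ℚ) : ℂ) := by
    intro p
    have := aeval_algebraMap_apply_eq_algebraMap_eval (A := ℂ) (1 : ℚ) p
    rw [map_one] at this
    exact this
  have hU0C : aeval (0 : ℂ) U ≠ 0 := by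
    have := aeval_algebraMap_apply_eq_algebraMap_eval (A := ℂ) (0 : ℚ) U
    rw [map_zero] at this
    rw [this]
    exact (_root_.map_ne_zero _).2 hU0
  refine criterionQ (X ^ 2 * V.comp (X ^ 2) + U.comp (X ^ 2))
    (X * (X ^ 2 - 1) * U.comp (X ^ 2)) (2 * m + 1) (4 * m)
    (by omega) ?_ ?_ ?_ ?_ ?_ (by omega) ?_ (fun p => c * (p.1 - p.2) * (p.1 * p.2)) ?_ hWW
    𝒞 h𝒞 h𝒞'
  · have h1 : (X ^ 2 * V.comp (X ^ 2) : ℚ[X]).natDegree = 2 * m + 2 := by
      rw [natDegree_mul hX2 hVc, natDegree_X_pow, natDegree_comp, natDegree_X_pow, hdV]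
      omega
    rw [natDegree_add_eq_left_of_natDegree_lt, h1]
    rw [h1, natDegree_comp, natDegree_X_pow, hdU]
    omega
  · rw [natDegree_mul (mul_ne_zero X_ne_zero hsq) hUc, natDegree_mul X_ne_zero hsq, natDegree_X,
      natDegree_X_sq_sub_one, natDegree_comp, natDegree_X_pow, hdU]
    omega
  · simp
  · simp [derivative_mul, hU1]
  · simp [derivative_mul, hU1]
  · intro y z hyz hne h
    have h1 := hWW y z hyz
    rw [h, sub_self] at h1
    have h2 : y * z = 0 ∨ (y + z) ^ (4 * m) = 0 := by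
      rcases mul_eq_zero.1 h1.symm with h3 | h3
      · left
        exact (mul_eq_zero.1 h3).resolve_left (mul_ne_zero hcC (sub_ne_zero.2 hne))
      · right
        exact h3
    have h4 : y = 0 ∨ y ^ 2 = 1 := by
      rcases h2 with h2 | h2
      · rcases mul_eq_zero.1 h2 with h3 | h3
        · left; exact h3
        · right
          rw [h3] at hyz
          linear_combination hyz
      · right
        have h3 : y + z = 0 := pow_eq_zero_iff (by omega) |>.1 h2
        linear_combination hyz - z * h3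
    rw [hAe, hBe]
    rcases h4 with h4 | h4
    · rw [h4]
      refine ⟨by ring, ?_⟩
      simpa using hU0C
    · rw [h4]
      refine ⟨by ring, ?_⟩
      rw [hev, hev, hV1, hU1]
      norm_num
  · fun_prop

end Pool.Agent.Lib.MP_625f41_nt.H49
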