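import Mathlib

/-!
# Irreducibility from one large root and Northcott's theorem
-/

open Polynomial

namespace Pool.Agent.Lib.MP_625f41_nt.H49

/-- the complex version of an integer polynomial -/
noncomputable abbrev toC (p : ℤ[X]) : ℂ[X] := p.map (Int.castRingHom ℂ)

lemma toC_ne_zero {p : ℤ[X]} (hp : p ≠ 0) : toC p ≠ 0 := by
  rw [Ne, Polynomial.map_eq_zero_iff (RingHom.injective_int _)]
  exact hp

lemma natDegree_toC (p : ℤ[X]) : (toC p).natDegree = p.natDegree :=
  natDegree_map_eq_of_injective (RingHom.injective_int _) _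

lemma eval_toC (p : ℤ[X]) (z : ℂ) : (toC p).eval z = aeval z p := by
  rw [toC, eval_map, aeval_def]
  rfl

lemma norm_le_mahlerMeasure {g : ℂ[X]} (hg : g.Monic) {ω : ℂ} (hω : g.eval ω = 0) :
    ‖ω‖ ≤ g.mahlerMeasure := by
  have h1 : (X - C ω) * (g /ₘ (X - C ω)) = g := mul_divByMonic_eq_iff_isRoot.2 hω
  have h2 : (g /ₘ (X - C ω)).Monic := by
    have := hg
    rw [← h1] at this
    exact (monic_X_sub_C ω).of_mul_monic_left this
  rw [← h1, mahlerMeasure_mul, mahlerMeasure_X_sub_C]
  have h3 : 1 ≤ (g /ₘ (X - C ω)).mahlerMeasure := by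
    have := leadingCoeff_le_mahlerMeasure (g /ₘ (X - C ω))
    rwa [h2.leadingCoeff, norm_one] at this
  have h4 : ‖ω‖ ≤ max 1 ‖ω‖ := le_max_right _ _
  nlinarith [norm_nonneg ω]

/-- A family of monic integer polynomials of Mahler measure at most `C T` with a root of absolute
value at least `c T`, and such that no two have a common root, consists of minimal polynomials,
up to finitely many exceptions. -/
theorem eventually_minpoly (q : ℕ → ℤ[X]) (N : ℕ) (K c : ℝ) (T0 : ℕ) (hc : 0 < c) (hK : 0 < K)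
    (hmon : ∀ T, T0 ≤ T → (q T).Monic) (hdeg : ∀ T, T0 ≤ T → (q T).natDegree = N)
    (hM : ∀ T, T0 ≤ T → (toC (q T)).mahlerMeasure ≤ K * T)
    (hroot : ∀ T, T0 ≤ T → ∃ ω : ℂ, (toC (q T)).eval ω = 0 ∧ c * T ≤ ‖ω‖)
    (hcop : ∀ T T' ω, (toC (q T)).eval ω = 0 → (toC (q T')).eval ω = 0 → T = T') :
    ∃ T1, ∀ T, T1 ≤ T → ∃ ω : ℂ, IsIntegral ℤ ω ∧ q T = minpoly ℤ ω := by
  classical
  set B : NNReal := ⟨K / c, by positivity⟩ with hB
  set S : Set ℤ[X] := {p : ℤ[X] | p.natDegree ≤ N ∧
    (p.map (Int.castRingHom ℂ)).mahlerMeasure ≤ B} with hS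
  have hSfin : S.Finite := finite_mahlerMeasure_le N B
  set Bad : Set ℕ := {T | max T0 1 ≤ T ∧ ∃ f ∈ S, 0 < f.natDegree ∧ f ∣ q T} with hBad
  have hBadfin : Bad.Finite := by
    have hex : ∀ T : Bad, ∃ f ∈ S, 0 < f.natDegree ∧ f ∣ q T := fun T => T.2.2
    choose F hFS hFd hFdvd using hex
    have hinj : Function.Injective F := by
      intro T T' h
      have hdeg0 : (toC (F T)).degree ≠ 0 := by
        intro h0
        have : (toC (F T)).natDegree = 0 := natDegree_eq_of_degree_eq_some h0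
        rw [natDegree_toC] at this
        have := hFd T
        omega
      obtain ⟨w, hw⟩ := IsAlgClosed.exists_root (toC (F T)) hdeg0
      have h1 : (toC (q T)).eval w = 0 := by
        obtain ⟨g, hg⟩ := hFdvd T
        rw [hg, toC, Polynomial.map_mul, eval_mul]
        rw [show eval w ((F T).map (Int.castRingHom ℂ)) = 0 from hw, zero_mul]
      have h2 : (toC (q T')).eval w = 0 := by
        obtain ⟨g, hg⟩ := hFdvd T'
        rw [hg, toC, Polynomial.map_mul, eval_mul, ← h]
        rw [show eval w ((F T).map (Int.castRingHom ℂ)) = 0 from hw, zero_mul]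
      exact Subtype.ext (hcop _ _ w h1 h2)
    have hfinS : Finite S := hSfin
    have : Finite Bad := Finite.of_injective (fun T => (⟨F T, hFS T⟩ : S)) (by
      intro T T' h
      exact hinj (congrArg Subtype.val h))
    exact Set.toFinite Bad
  obtain ⟨b, hb⟩ := hBadfin.bddAbove
  refine ⟨max (max T0 1) (b + 1), fun T hT => ?_⟩
  have hT0 : T0 ≤ T := by omega
  have hT1 : 1 ≤ T := by omega
  have hTbad : T ∉ Bad := by
    intro h
    have := hb h
    omega
  obtain ⟨ω, hω, hωn⟩ := hroot T hT0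
  have hTpos : (0 : ℝ) < T := by exact_mod_cast hT1
  have hω' : aeval ω (q T) = 0 := by rw [← eval_toC]; exact hω
  have hint : IsIntegral ℤ ω := ⟨q T, hmon T hT0, by rwa [aeval_def] at hω'⟩
  refine ⟨ω, hint, ?_⟩
  obtain ⟨f, hf⟩ := minpoly.isIntegrallyClosed_dvd hint hω'
  have hgm : (minpoly ℤ ω).Monic := minpoly.monic hint
  have hfm : f.Monic := by
    have := hmon T hT0
    rw [hf] at this
    exact hgm.of_mul_monic_left this
  have hMg : c * T ≤ (toC (minpoly ℤ ω)).mahlerMeasure := by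
    refine hωn.trans (norm_le_mahlerMeasure (hgm.map _) ?_)
    rw [eval_toC]
    exact minpoly.aeval ℤ ω
  have hMf : (toC f).mahlerMeasure ≤ K / c := by
    have h1 := hM T hT0
    rw [hf, toC, Polynomial.map_mul, mahlerMeasure_mul] at h1
    have h2 : 0 ≤ (toC f).mahlerMeasure := mahlerMeasure_nonneg _
    have h3 : c * T * (toC f).mahlerMeasure ≤ K * T :=
      (mul_le_mul_of_nonneg_right hMg h2).trans h1
    rw [le_div_iff₀ hc]
    have h4 : T * ((toC f).mahlerMeasure * c) ≤ T * K := by linarith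
    exact le_of_mul_le_mul_left h4 hTpos
  have hfd : f.natDegree ≤ N := by
    have := hdeg T hT0
    rw [hf, natDegree_mul hgm.ne_zero hfm.ne_zero] at this
    omega
  have hf0 : f.natDegree = 0 := by
    by_contra hne
    apply hTbad
    refine ⟨by omega, f, ⟨hfd, hMf⟩, Nat.pos_of_ne_zero hne, ?_⟩
    rw [hf]
    exact dvd_mul_left _ _
  rw [hf, hfm.natDegree_eq_zero.1 hf0, mul_one]

end Pool.Agent.Lib.MP_625f41_nt.H49
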