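import Pool.Agent.Lib.MP_625f41_nt.Basic
import Pool.Agent.Lib.MP_625f41_nt.H49.Irr

/-!
# The minimal polynomial of `ω ^ 3 - E ω`
-/

open Polynomial

namespace Pool.Agent.Lib.MP_625f41_nt.H49

lemma toC_eq_mapQ (p : ℤ[X]) :
    toC p = (p.map (Int.castRingHom ℚ)).map (algebraMap ℚ ℂ) := by
  rw [toC, Polynomial.map_map]
  congr 1

lemma nodup_of_irreducible {p : ℤ[X]} (h : Irreducible (p.map (Int.castRingHom ℚ))) :
    (toC p).roots.Nodup := by
  rw [toC_eq_mapQ]
  exact nodup_roots (h.separable.map)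

lemma irreducible_minpoly {ω : ℂ} (hω : IsIntegral ℤ ω) :
    Irreducible ((minpoly ℤ ω).map (Int.castRingHom ℚ)) := by
  have h := (minpoly.monic hω).irreducible_iff_irreducible_map_fraction_map (K := ℚ)
  exact h.1 (minpoly.irreducible hω)

theorem minpoly_theta {ω : ℂ} (hω : IsIntegral ℤ ω) (E : ℤ)
    (hinj : ∀ y z : ℂ, (toC (minpoly ℤ ω)).eval y = 0 → (toC (minpoly ℤ ω)).eval z = 0 →
      y ^ 3 - E * y = z ^ 3 - E * z → y = z) :
    ∃ P : ℤ[X], P.Monic ∧ P.natDegree = (minpoly ℤ ω).natDegree ∧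
      Irreducible (P.map (Int.castRingHom ℚ)) ∧
      (toC P).roots = (toC (minpoly ℤ ω)).roots.map (fun y : ℂ => y ^ 3 - (E : ℂ) * y) := by
  have hθ : IsIntegral ℤ (ω ^ 3 - (E : ℂ) * ω) := by
    have hE : IsIntegral ℤ (E : ℂ) := by
      have := isIntegral_algebraMap (R := ℤ) (A := ℂ) (x := E)
      simpa using this
    exact (hω.pow 3).sub (hE.mul hω)
  set P := minpoly ℤ (ω ^ 3 - (E : ℂ) * ω) with hP
  have hPirr := irreducible_minpoly hθ
  rw [← hP] at hPirr
  have hPm : P.Monic := minpoly.monic hθ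
  set q := minpoly ℤ ω with hq
  have hqm : q.Monic := minpoly.monic hω
  have hqnd := nodup_of_irreducible (irreducible_minpoly hω)
  rw [← hq] at hqnd
  have hroot : ∀ y : ℂ, (toC q).eval y = 0 → (toC P).eval (y ^ 3 - E * y) = 0 := by
    intro y hy
    have h1 : q ∣ P.comp (X ^ 3 - C E * X) := by
      refine minpoly.isIntegrallyClosed_dvd hω ?_
      rw [aeval_comp]
      have : aeval ω (X ^ 3 - C E * X : ℤ[X]) = ω ^ 3 - (E : ℂ) * ω := by
        simp
      rw [this]
      exact minpoly.aeval ℤ _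
    obtain ⟨G, hG⟩ := h1
    have h2 : aeval y (P.comp (X ^ 3 - C E * X)) = 0 := by
      rw [hG, map_mul, ← eval_toC, hy, zero_mul]
    rw [aeval_comp] at h2
    have h3 : aeval y (X ^ 3 - C E * X : ℤ[X]) = y ^ 3 - (E : ℂ) * y := by
      simp
    rw [h3] at h2
    rw [eval_toC]
    exact h2
  have hle : (toC q).roots.map (fun y : ℂ => y ^ 3 - (E : ℂ) * y) ≤ (toC P).roots := by
    rw [Multiset.le_iff_subset]
    · intro w hw
      obtain ⟨y, hy, rfl⟩ := Multiset.mem_map.1 hw
      rw [mem_roots (toC_ne_zero hqm.ne_zero)] at hy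
      rw [mem_roots (toC_ne_zero hPm.ne_zero)]
      exact hroot y hy
    · refine Multiset.Nodup.map_on ?_ hqnd
      intro y hy z hz h
      rw [mem_roots (toC_ne_zero hqm.ne_zero)] at hy hz
      exact hinj y z hy hz h
  have hdeg : P.natDegree ≤ q.natDegree := by
    have hQω : IsIntegral ℚ ω := hω.tower_top
    have e1 : minpoly ℚ ω = q.map (algebraMap ℤ ℚ) :=
      minpoly.isIntegrallyClosed_eq_field_fractions' ℚ hω
    have e2 : minpoly ℚ (ω ^ 3 - (E : ℂ) * ω) = P.map (algebraMap ℤ ℚ) :=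
      minpoly.isIntegrallyClosed_eq_field_fractions' ℚ hθ
    have d1 : (minpoly ℚ ω).natDegree = q.natDegree := by
      rw [e1]; exact hqm.natDegree_map _
    have d2 : (minpoly ℚ (ω ^ 3 - (E : ℂ) * ω)).natDegree = P.natDegree := by
      rw [e2]; exact hPm.natDegree_map _
    rw [← d1, ← d2, ← IntermediateField.adjoin.finrank hQω]
    set L := IntermediateField.adjoin ℚ {ω} with hL
    have : FiniteDimensional ℚ L := IntermediateField.adjoin.finiteDimensional hQω
    let x : L := (IntermediateField.AdjoinSimple.gen ℚ ω) ^ 3 -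
      (E : L) * IntermediateField.AdjoinSimple.gen ℚ ω
    have hx : algebraMap L ℂ x = ω ^ 3 - (E : ℂ) * ω := by
      simp [x]
    have h3 := minpoly.algebraMap_eq (A := ℚ) (algebraMap L ℂ).injective x
    rw [hx] at h3
    rw [h3]
    exact minpoly.natDegree_le x
  have hcq : ((toC q).roots.map (fun y : ℂ => y ^ 3 - (E : ℂ) * y)).card = q.natDegree := by
    rw [Multiset.card_map, ← (IsAlgClosed.splits _).natDegree_eq_card_roots, natDegree_toC]
  have hcP : (toC P).roots.card = P.natDegree := by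
    rw [← (IsAlgClosed.splits _).natDegree_eq_card_roots, natDegree_toC]
  have heq : (toC q).roots.map (fun y : ℂ => y ^ 3 - (E : ℂ) * y) = (toC P).roots :=
    Multiset.eq_of_le_of_card_le hle (by rw [hcq, hcP]; exact hdeg)
  refine ⟨P, hPm, ?_, hPirr, heq.symm⟩
  rw [← hcP, ← heq, hcq]

/-- height bound for the polynomial `P` -/
theorem height_theta {P q : ℤ[X]} (E : ℤ) (hP : P.Monic) (hq : q.Monic)
    (hdeg : P.natDegree = q.natDegree)
    (hroots : (toC P).roots = (toC q).roots.map (fun y : ℂ => y ^ 3 - (E : ℂ) * y)) (i : ℕ) :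
    |((P.coeff i : ℤ) : ℝ)| ≤ 2 ^ q.natDegree * ((1 + |(E : ℝ)|) ^ q.natDegree *
      (toC q).mahlerMeasure ^ 3) := by
  have hMP : (toC P).mahlerMeasure =
      ((toC q).roots.map fun y => max 1 ‖y ^ 3 - (E : ℂ) * y‖).prod := by
    rw [mahlerMeasure_eq_leadingCoeff_mul_prod_roots, (hP.map _).leadingCoeff, norm_one, one_mul,
      hroots, Multiset.map_map]
    rfl
  have hMq : (toC q).mahlerMeasure = ((toC q).roots.map fun y => max 1 ‖y‖).prod := by
    rw [mahlerMeasure_eq_leadingCoeff_mul_prod_roots, (hq.map _).leadingCoeff, norm_one, one_mul]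
  have hcard : (toC q).roots.card = q.natDegree := by
    rw [← (IsAlgClosed.splits _).natDegree_eq_card_roots, natDegree_toC]
  have hle : (toC P).mahlerMeasure ≤ (1 + |(E : ℝ)|) ^ q.natDegree *
      (toC q).mahlerMeasure ^ 3 := by
    rw [hMP, hMq, ← hcard]
    generalize (toC q).roots = s
    induction s using Multiset.induction_on with
    | empty => simp
    | cons y s ih =>
      rw [Multiset.map_cons, Multiset.prod_cons, Multiset.map_cons, Multiset.prod_cons,
        Multiset.card_cons, pow_succ]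
      have h1 : max 1 ‖y ^ 3 - (E : ℂ) * y‖ ≤ (1 + |(E : ℝ)|) * (max 1 ‖y‖) ^ 3 := by
        have hm1 : 1 ≤ max 1 ‖y‖ := le_max_left _ _
        have hm2 : ‖y‖ ≤ max 1 ‖y‖ := le_max_right _ _
        have hm3 : 1 ≤ (max 1 ‖y‖) ^ 3 := one_le_pow₀ hm1
        have hE : 0 ≤ |(E : ℝ)| := abs_nonneg _
        apply max_le
        · nlinarith
        · have h2 : ‖y ^ 3 - (E : ℂ) * y‖ ≤ ‖y‖ ^ 3 + |(E : ℝ)| * ‖y‖ := by
            refine (norm_sub_le _ _).trans ?_
            rw [norm_pow, norm_mul, Complex.norm_intCast]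
          have h3 : ‖y‖ ^ 3 ≤ (max 1 ‖y‖) ^ 3 := pow_le_pow_left₀ (norm_nonneg _) hm2 3
          have h4 : ‖y‖ ≤ (max 1 ‖y‖) ^ 3 := by
            refine hm2.trans ?_
            exact le_self_pow₀ hm1 (by norm_num)
          have h5 : |(E : ℝ)| * ‖y‖ ≤ |(E : ℝ)| * (max 1 ‖y‖) ^ 3 :=
            mul_le_mul_of_nonneg_left h4 hE
          linarith
      have h0 : 0 ≤ (s.map fun y => max 1 ‖y ^ 3 - (E : ℂ) * y‖).prod := by
        apply Multiset.prod_nonneg
        intro a ha
        obtain ⟨b, _, rfl⟩ := Multiset.mem_map.1 ha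
        exact zero_le_one.trans (le_max_left _ _)
      have h00 : 0 ≤ (1 + |(E : ℝ)|) * (max 1 ‖y‖) ^ 3 := by positivity
      calc max 1 ‖y ^ 3 - (E : ℂ) * y‖ * (s.map fun y => max 1 ‖y ^ 3 - (E : ℂ) * y‖).prod
          ≤ ((1 + |(E : ℝ)|) * (max 1 ‖y‖) ^ 3) *
            ((1 + |(E : ℝ)|) ^ s.card * ((s.map fun y => max 1 ‖y‖).prod) ^ 3) :=
            mul_le_mul h1 ih h0 h00
        _ = _ := by ring
  have hco : |((P.coeff i : ℤ) : ℝ)| = ‖(toC P).coeff i‖ := by
    rw [toC, coeff_map]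
    simp
  rw [hco]
  refine (norm_coeff_le_choose_mul_mahlerMeasure i (toC P)).trans ?_
  rw [natDegree_toC, hdeg]
  refine mul_le_mul ?_ hle (mahlerMeasure_nonneg _) (by positivity)
  have := Nat.choose_le_two_pow q.natDegree i
  exact_mod_cast this

end Pool.Agent.Lib.MP_625f41_nt.H49
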