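import Mathlib

/-!
# A root close to a point where the Newton quotient is small
-/

open Polynomial

namespace Pool.Agent.Lib.MP_625f41_nt.H49

/-- If `p' (w) ≠ 0` then `p` has a root at distance at most `deg p * |p w / p' w|` from `w`. -/
lemma exists_near_root (p : ℂ[X]) (w : ℂ) (hd : p.derivative.eval w ≠ 0) :
    ∃ z, p.eval z = 0 ∧ ‖z - w‖ ≤ p.natDegree * (‖p.eval w‖ / ‖p.derivative.eval w‖) := by
  by_cases h0 : p.eval w = 0
  · exact ⟨w, h0, by simp [h0]⟩
  by_contra hcon
  push Not at hcon
  have hp0 : p ≠ 0 := by rintro rfl; simp at hd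
  have hdpos : 0 < ‖p.derivative.eval w‖ := norm_pos_iff.2 hd
  have hepos : 0 < ‖p.eval w‖ := norm_pos_iff.2 h0
  have hsum := (IsAlgClosed.splits p).eval_derivative_div_eval_of_ne_zero h0
  have hn : 0 < p.natDegree := by
    rcases Nat.eq_zero_or_pos p.natDegree with h | h
    · exfalso
      rw [natDegree_eq_zero] at h
      obtain ⟨c, rfl⟩ := h
      simp at hd
    · exact h
  have hnpos : (0 : ℝ) < p.natDegree := by exact_mod_cast hn
  set δ : ℝ := p.natDegree * (‖p.eval w‖ / ‖p.derivative.eval w‖) with hδ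
  have hδpos : 0 < δ := by positivity
  have hcard : p.roots.card = p.natDegree := (IsAlgClosed.splits p).natDegree_eq_card_roots.symm
  -- each root is farther than δ
  have hroot : ∀ z ∈ p.roots, ‖1 / (w - z)‖ < 1 / δ := by
    intro z hz
    have hz0 : p.eval z = 0 := (mem_roots hp0).1 hz
    have h1 := hcon z hz0
    rw [norm_div, norm_one, norm_sub_rev]
    exact one_div_lt_one_div_of_lt hδpos h1
  have hne : p.roots ≠ 0 := by
    intro h
    rw [h, Multiset.card_zero] at hcard
    omega
  have hlt : ‖(p.roots.map fun z => 1 / (w - z)).sum‖ < p.natDegree * (1 / δ) := by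
    have h1 : ‖(p.roots.map fun z => 1 / (w - z)).sum‖ ≤
        (p.roots.map fun z => ‖1 / (w - z)‖).sum := by
      have := norm_multiset_sum_le (p.roots.map fun z => 1 / (w - z))
      rwa [Multiset.map_map] at this
    refine lt_of_le_of_lt h1 ?_
    have h2 : (p.roots.map fun z => ‖1 / (w - z)‖).sum < (p.roots.map fun _ => 1 / δ).sum := by
      refine Multiset.sum_lt_sum_of_nonempty hne ?_
      intro z hz
      exact hroot z hz
    rw [Multiset.map_const', Multiset.sum_replicate, hcard, nsmul_eq_mul] at h2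
    exact h2
  rw [← hsum, norm_div] at hlt
  have h3 : (p.natDegree : ℝ) * (1 / δ) = ‖p.derivative.eval w‖ / ‖p.eval w‖ := by
    rw [hδ]
    field_simp
  rw [h3] at hlt
  exact lt_irrefl _ hlt

end Pool.Agent.Lib.MP_625f41_nt.H49
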