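import Pool.Agent.Lib.MP_625f41_nt.H49.Crit

/-!
# Degree four

`A = X^4 - 41 X^2 - 28 X - 2100`, `B = 5 X^3 + X^2 - 96 X - 108 = (X^2 - X - 18)(5 X + 6)`,
conic `y^2 + y z + z^2 = 19`.
-/

open Polynomial Filter Topology

namespace Pool.Agent.Lib.MP_625f41_nt.H49

namespace Quartic

noncomputable def A : ℤ[X] := X ^ 4 - 41 * X ^ 2 - 28 * X - 2100

noncomputable def B : ℤ[X] := 5 * X ^ 3 + X ^ 2 - 96 * X - 108

lemma eval_A (z : ℂ) : (toC A).eval z = z ^ 4 - 41 * z ^ 2 - 28 * z - 2100 := by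
  simp [A, toC]

lemma eval_B (z : ℂ) : (toC B).eval z = 5 * z ^ 3 + z ^ 2 - 96 * z - 108 := by
  simp [B, toC]

lemma eval_B' (z : ℂ) : (toC B).derivative.eval z = 15 * z ^ 2 + 2 * z - 96 := by
  have h : (toC B).derivative = 15 * X ^ 2 + 2 * X - 96 := by
    simp only [toC, B, Polynomial.map_sub, Polynomial.map_add, Polynomial.map_mul,
      Polynomial.map_ofNat, Polynomial.map_pow, Polynomial.map_X]
    simp only [derivative_sub, derivative_add, derivative_mul, derivative_ofNat, derivative_X_pow,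
      derivative_X]
    simp only [Nat.cast_ofNat, map_ofNat]
    ring
  rw [h]
  simp

lemma natDegree_A : A.natDegree = 4 := by
  unfold A
  compute_degree!

lemma natDegree_B : B.natDegree = 3 := by
  unfold B
  compute_degree!

lemma wedge (y z : ℂ) (h : y ^ 2 + y * z + z ^ 2 = 19) :
    (toC A).eval z * (toC B).eval y - (toC A).eval y * (toC B).eval z =
      -((y - z) * (5 * (y + z) + 26)) * (y + z - 1) ^ 5 := by
  rw [eval_A, eval_A, eval_B, eval_B]
  linear_combination (5 * y ^ 5 + 20 * y ^ 4 * z + y ^ 4 + 20 * y ^ 3 * z ^ 2 + 3 * y ^ 3 * z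
    + 15 * y ^ 3 - 20 * y ^ 2 * z ^ 3 + 221 * y ^ 2 * z + 337 * y ^ 2 - 20 * y * z ^ 4
    - 3 * y * z ^ 3 - 221 * y * z ^ 2 - 10450 * y - 5 * z ^ 5 - z ^ 4 - 15 * z ^ 3
    - 337 * z ^ 2 + 10450 * z) * h

lemma A_ne {z : ℂ} (h : z ^ 2 - z - 18 = 0) : (toC A).eval z ≠ 0 := by
  rw [eval_A]
  intro h1
  have h2 : z = -78 := by
    linear_combination (-1 / 32) * h1 + (1 / 32) * (z ^ 2 + z - 22) * h
  rw [h2] at h
  norm_num at h

lemma cop (z : ℂ) (h : (toC A).eval z = 0) : (toC B).eval z ≠ 0 := by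
  intro h1
  rw [eval_B] at h1
  have h2 : (z ^ 2 - z - 18) * (5 * z + 6) = 0 := by linear_combination h1
  rcases mul_eq_zero.1 h2 with h3 | h3
  · exact A_ne h3 h
  · have h4 : z = -6 / 5 := by linear_combination (1 / 5) * h3
    rw [eval_A, h4] at h
    norm_num at h

lemma inj (T : ℕ) (y z : ℂ) (hy : (toC A).eval y + T * (toC B).eval y = 0)
    (hz : (toC A).eval z + T * (toC B).eval z = 0) (hyz : y ≠ z) :
    y ^ 2 + y * z + z ^ 2 ≠ 19 := by
  intro h
  have h1 := wedge y z h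
  have h2 : (toC A).eval z * (toC B).eval y - (toC A).eval y * (toC B).eval z = 0 := by
    linear_combination (toC B).eval y * hz - (toC B).eval z * hy
  rw [h2] at h1
  rcases mul_eq_zero.1 h1.symm with h3 | h3
  · have h4 : 5 * (y + z) + 26 = 0 := by
      have := neg_eq_zero.1 h3
      exact (mul_eq_zero.1 this).resolve_left (sub_ne_zero.2 hyz)
    have h5 : 25 * y ^ 2 + 130 * y + 201 = 0 := by
      linear_combination (25 : ℂ) * h - (5 * z - 26) * h4
    rw [eval_A, eval_B] at hy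
    have h6 : (y - 15) * (16026 - 775 * (T : ℂ)) = 0 := by
      linear_combination 125 * hy - (5 * y ^ 2 - 26 * y - 110 + T * (25 * y - 125)) * h5
    rcases mul_eq_zero.1 h6 with h7 | h7
    · have h8 : y = 15 := by linear_combination h7
      rw [h8] at h5
      norm_num at h5
    · have h8 : ((16026 : ℕ) : ℂ) = ((775 * T : ℕ) : ℂ) := by
        push_cast
        linear_combination h7
      have h9 : 16026 = 775 * T := by exact_mod_cast h8
      omega
  · have h4 : y + z - 1 = 0 := pow_eq_zero_iff (by norm_num) |>.1 h3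
    have h5 : y ^ 2 - y - 18 = 0 := by linear_combination h - (z + 1) * h4
    have h6 : (toC B).eval y = 0 := by
      rw [eval_B]
      linear_combination (5 * y + 6) * h5
    rw [h6, mul_zero, add_zero] at hy
    exact A_ne h5 hy

theorem quartic (𝒞 : ℤ[X] → Prop) (h𝒞 : ∀ P, 𝒞 P → HasDistinctRoots P)
    (h𝒞' : ∀ P, HasDistinctRoots P → P.Monic → IrreducibleOverRat P → 𝒞 P) :
    ((((5 : ℕ) : ℝ) / 3 : ℝ) : EReal) ≤ sepExponent 𝒞 4 := by
  obtain ⟨s, hs⟩ := IsAlgClosed.exists_pow_nat_eq (73 : ℂ) (n := 2) (by norm_num)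
  have hs0 : s ≠ 0 := by rintro rfl; norm_num at hs
  set g : ℂ × ℂ → ℂ := fun p => -((p.1 - p.2) * (5 * (p.1 + p.2) + 26)) with hg
  have hgc : Continuous g := by rw [hg]; fun_prop
  refine criterion A B 3 5 19 ((1 + s) / 2) ((1 - s) / 2)
    (‖g ((1 + s) / 2, (1 - s) / 2)‖ + 1) (by positivity) (by norm_num) natDegree_A natDegree_B
    ?_ ?_ ?_ ?_ ?_ ?_ (by norm_num) cop ?_ ?_ 𝒞 h𝒞 h𝒞'
  · push_cast
    linear_combination (1 / 4) * hs
  · intro h
    apply hs0
    linear_combination h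
  · intro h
    have h1 : s = 3 := by linear_combination -2 * h
    rw [h1] at hs
    norm_num at hs
  · rw [eval_B]
    linear_combination (1 / 4) * (5 * ((1 + s) / 2) + 6) * hs
  · rw [eval_B']
    intro h
    have h1 : s * (17 + 5 * s) = 0 := by linear_combination 2 * h - (5 / 2) * hs
    have h2 := (mul_eq_zero.1 h1).resolve_left hs0
    have h3 : s = -17 / 5 := by linear_combination (1 / 5) * h2
    rw [h3] at hs
    norm_num at hs
  · rw [eval_B']
    intro h
    have h1 : s * (17 - 5 * s) = 0 := by linear_combination -2 * h + (5 / 2) * hs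
    have h2 := (mul_eq_zero.1 h1).resolve_left hs0
    have h3 : s = 17 / 5 := by linear_combination (-1 / 5) * h2
    rw [h3] at hs
    norm_num at hs
  · refine Eventually.of_forall fun T => ?_
    intro y z hy hz hyz
    have := inj T y z hy hz hyz
    exact_mod_cast this
  · have h1 : ∀ᶠ p : ℂ × ℂ in 𝓝 ((1 + s) / 2, (1 - s) / 2),
        ‖g p‖ ≤ ‖g ((1 + s) / 2, (1 - s) / 2)‖ + 1 :=
      (hgc.continuousAt).norm.eventually_le_const (by linarith)
    filter_upwards [h1] with p hp hcon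
    have hcon' : p.1 ^ 2 + p.1 * p.2 + p.2 ^ 2 = 19 := by exact_mod_cast hcon
    rw [wedge p.1 p.2 hcon', norm_mul, norm_pow,
      show p.1 + p.2 - ((1 + s) / 2 + (1 - s) / 2) = p.1 + p.2 - 1 by ring]
    gcongr

end Quartic

end Pool.Agent.Lib.MP_625f41_nt.H49
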